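import Mathlib

set_option autoImplicit false

namespace Pool.Agent.Helper74.HamOne

/-- adjacent offsets inside one block of the base graph -/
def prs : List (ℕ × ℕ) := [(2, 5), (3, 5), (3, 6), (4, 6), (2, 7), (4, 7), (0, 8), (1, 8), (2, 8),
  (0, 9), (1, 9), (4, 9)]

def E0 (x y : ℕ) : Prop := (x, y) ∈ prs ∨ (y, x) ∈ prs

instance (x y : ℕ) : Decidable (E0 x y) := inferInstanceAs (Decidable (_ ∨ _))

/-- one direction of the connections between different blocks -/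
def conn0 (m p q : ℕ) : Prop :=
  (∃ i, i + 1 < m ∧ ((p = 10 * i ∧ q = 10 * (i + 1) + 5) ∨ (p = 10 * i ∧ q = 10 * (i + 1) + 6) ∨
    (p = 10 * i + 7 ∧ q = 10 * (i + 1) + 1))) ∨ (p = 5 ∧ q = 10 * m) ∨
    (p = 10 * (m - 1) + 7 ∧ q = 10 * m)

/-- adjacency of the base graph -/
def badj (m p q : ℕ) : Prop :=
  (∃ i x y, i < m ∧ E0 x y ∧ p = 10 * i + x ∧ q = 10 * i + y) ∨ conn0 m p q ∨ conn0 m q p

theorem E0_symm {x y : ℕ} (h : E0 x y) : E0 y x := h.symm

theorem badj_symm {m p q : ℕ} (h : badj m p q) : badj m q p := by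
  rcases h with ⟨i, x, y, hi, hxy, hp, hq⟩ | h | h
  · exact Or.inl ⟨i, y, x, hi, hxy.symm, hq, hp⟩
  · exact Or.inr (Or.inr h)
  · exact Or.inr (Or.inl h)

theorem c1 {m i : ℕ} (h : i + 1 < m) : badj m (10 * i) (10 * (i + 1) + 5) :=
  Or.inr (Or.inl (Or.inl ⟨i, h, Or.inl ⟨rfl, rfl⟩⟩))

theorem c2 {m i : ℕ} (h : i + 1 < m) : badj m (10 * i) (10 * (i + 1) + 6) :=
  Or.inr (Or.inl (Or.inl ⟨i, h, Or.inr (Or.inl ⟨rfl, rfl⟩)⟩))

theorem c3 {m i : ℕ} (h : i + 1 < m) : badj m (10 * i + 7) (10 * (i + 1) + 1) :=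
  Or.inr (Or.inl (Or.inl ⟨i, h, Or.inr (Or.inr ⟨rfl, rfl⟩)⟩))

/-- shifted list of offsets -/
def sh (i : ℕ) (l : List ℕ) : List ℕ := l.map (fun x => 10 * i + x)

/-- A Hamiltonian path of the blocks `lo, ..., hi - 1`. -/
structure PathOn (m lo hi a b : ℕ) (L : List ℕ) : Prop where
  nd : L.Nodup
  mem : ∀ v, v ∈ L ↔ lo ≤ v / 10 ∧ v / 10 < hi
  ch : L.IsChain (badj m)
  hd : L.head? = some a
  lt : L.getLast? = some b

theorem PathOn.rev {m lo hi a b : ℕ} {L : List ℕ} (h : PathOn m lo hi a b L) :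
    PathOn m lo hi b a L.reverse := by
  refine ⟨List.nodup_reverse.mpr h.nd, ?_, ?_, ?_, ?_⟩
  · intro v; rw [List.mem_reverse, h.mem]
  · rw [List.isChain_reverse]
    exact h.ch.imp (fun p q hpq => badj_symm hpq)
  · rw [List.head?_reverse]; exact h.lt
  · rw [List.getLast?_reverse]; exact h.hd

theorem PathOn.append {m lo hi lo' hi' lo'' hi'' a b c d : ℕ} {L L' : List ℕ}
    (h : PathOn m lo hi a b L) (h' : PathOn m lo' hi' c d L') (hbc : badj m b c)
    (hr : ∀ j, (lo'' ≤ j ∧ j < hi'') ↔ ((lo ≤ j ∧ j < hi) ∨ (lo' ≤ j ∧ j < hi')))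
    (hd : ∀ j, (lo ≤ j ∧ j < hi) → ¬ (lo' ≤ j ∧ j < hi')) :
    PathOn m lo'' hi'' a d (L ++ L') := by
  refine ⟨?_, ?_, ?_, ?_, ?_⟩
  · rw [List.nodup_append]
    refine ⟨h.nd, h'.nd, ?_⟩
    intro x hx y hy hxy
    subst hxy
    exact hd _ ((h.mem x).mp hx) ((h'.mem x).mp hy)
  · intro v
    rw [List.mem_append, h.mem, h'.mem, hr]
  · rw [List.isChain_append]
    refine ⟨h.ch, h'.ch, ?_⟩
    intro x hx y hy
    rw [h.lt] at hx
    rw [h'.hd] at hy
    simp only [Option.mem_def, Option.some.injEq] at hx hy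
    subst hx hy
    exact hbc
  · rw [List.head?_append, h.hd]; rfl
  · rw [List.getLast?_append, h'.lt]; rfl

theorem mem_sh {i : ℕ} {l : List ℕ} (hl : ∀ x ∈ l, x < 10) (v : ℕ) :
    v ∈ sh i l ↔ v / 10 = i ∧ v % 10 ∈ l := by
  simp only [sh, List.mem_map]
  constructor
  · rintro ⟨x, hx, rfl⟩
    have := hl x hx
    refine ⟨by omega, ?_⟩
    have e : (10 * i + x) % 10 = x := by omega
    rw [e]; exact hx
  · rintro ⟨h1, h2⟩
    exact ⟨v % 10, h2, by omega⟩

theorem chain_sh {m i : ℕ} (hi : i < m) {l : List ℕ} (hl : l.IsChain E0) :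
    (sh i l).IsChain (badj m) := by
  rw [sh, List.isChain_map]
  exact hl.imp (fun x y hxy => Or.inl ⟨i, x, y, hi, hxy, rfl, rfl⟩)

theorem nodup_sh {i : ℕ} {l : List ℕ} (hl : l.Nodup) : (sh i l).Nodup := by
  rw [sh]
  exact hl.map (fun x y hxy => by simpa using hxy)

theorem block {m i : ℕ} (hi : i < m) {l : List ℕ} (hp : l.Perm (List.range 10))
    (hch : l.IsChain E0) {a b : ℕ} (ha : l.head? = some a) (hb : l.getLast? = some b) :
    PathOn m i (i + 1) (10 * i + a) (10 * i + b) (sh i l) := by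
  have hlt : ∀ x ∈ l, x < 10 := fun x hx => List.mem_range.mp (hp.mem_iff.mp hx)
  refine ⟨nodup_sh (hp.nodup_iff.mpr (List.nodup_range)), ?_, chain_sh hi hch, ?_, ?_⟩
  · intro v
    rw [mem_sh hlt, hp.mem_iff, List.mem_range]
    omega
  · rw [sh, List.head?_map, ha]; rfl
  · rw [sh, List.getLast?_map, hb]; rfl

theorem PathOn.insert {m lo hi lo' hi' c d i : ℕ} {L : List ℕ} (h : PathOn m lo hi c d L)
    (hi0 : i < m) {p1 p2 : List ℕ} (hp : (p1 ++ p2).Perm (List.range 10))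
    (hch1 : p1.IsChain E0) (hch2 : p2.IsChain E0) {a x y b : ℕ} (ha : p1.head? = some a)
    (hx : p1.getLast? = some x) (hy : p2.head? = some y) (hb : p2.getLast? = some b)
    (hxc : badj m (10 * i + x) c) (hdy : badj m d (10 * i + y))
    (hr : ∀ j, (lo' ≤ j ∧ j < hi') ↔ (j = i ∨ (lo ≤ j ∧ j < hi))) (hni : ¬ (lo ≤ i ∧ i < hi)) :
    PathOn m lo' hi' (10 * i + a) (10 * i + b) (sh i p1 ++ (L ++ sh i p2)) := by
  have hlt : ∀ x ∈ p1 ++ p2, x < 10 := fun x hx => List.mem_range.mp (hp.mem_iff.mp hx)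
  have hlt1 : ∀ x ∈ p1, x < 10 := fun x hx => hlt x (List.mem_append_left _ hx)
  have hlt2 : ∀ x ∈ p2, x < 10 := fun x hx => hlt x (List.mem_append_right _ hx)
  have hnd : (p1 ++ p2).Nodup := hp.nodup_iff.mpr (List.nodup_range)
  rw [List.nodup_append] at hnd
  refine ⟨?_, ?_, ?_, ?_, ?_⟩
  · rw [List.nodup_append, List.nodup_append]
    refine ⟨nodup_sh hnd.1, ⟨h.nd, nodup_sh hnd.2.1, ?_⟩, ?_⟩
    · intro v hv w hw hvw
      subst hvw
      rw [h.mem] at hv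
      rw [mem_sh hlt2] at hw
      exact hni (hw.1 ▸ hv)
    · intro v hv w hw hvw
      subst hvw
      rw [mem_sh hlt1] at hv
      rcases List.mem_append.mp hw with hw | hw
      · rw [h.mem] at hw
        exact hni (hv.1 ▸ hw)
      · rw [mem_sh hlt2] at hw
        exact hnd.2.2 _ hv.2 _ hw.2 rfl
  · intro v
    rw [List.mem_append, List.mem_append, mem_sh hlt1, mem_sh hlt2, h.mem, hr]
    have h1 : v % 10 ∈ p1 ∨ v % 10 ∈ p2 := by
      rw [← List.mem_append, hp.mem_iff, List.mem_range]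
      exact Nat.mod_lt _ (by norm_num)
    tauto
  · rw [List.isChain_append, List.isChain_append]
    refine ⟨chain_sh hi0 hch1, ⟨h.ch, chain_sh hi0 hch2, ?_⟩, ?_⟩
    · intro v hv w hw
      rw [h.lt] at hv
      rw [sh, List.head?_map, hy] at hw
      simp only [Option.map_some, Option.mem_def, Option.some.injEq] at hv hw
      subst hv hw
      exact hdy
    · intro v hv w hw
      rw [sh, List.getLast?_map, hx] at hv
      rw [List.head?_append, h.hd] at hw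
      simp only [Option.map_some, Option.some_or, Option.mem_def, Option.some.injEq] at hv hw
      subst hv hw
      exact hxc
  · rw [List.head?_append, sh, List.head?_map, ha]; rfl
  · rw [List.getLast?_append, List.getLast?_append, sh, List.getLast?_map, hb]; rfl

/-- two-strand region entered at offset 5 -/
theorem loop5 {m : ℕ} (j : ℕ) (hj : j < m) : ∀ k i, i + k = j →
    ∃ L, PathOn m i (j + 1) (10 * i + 5) (10 * i + 1) L := by
  intro k
  induction k with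
  | zero =>
    intro i hi
    obtain rfl : i = j := by omega
    exact ⟨_, block hj (l := [5, 3, 6, 4, 7, 2, 8, 0, 9, 1]) (by decide) (by decide) rfl rfl⟩
  | succ k ih =>
    intro i hi
    obtain ⟨L, hL⟩ := ih (i + 1) (by omega)
    exact ⟨_, hL.insert (i := i) (lo' := i) (hi' := j + 1) (by omega) (p1 := [5, 3, 6, 4, 9, 0])
      (p2 := [7, 2, 8, 1]) (by decide) (by decide) (by decide) rfl rfl rfl rfl
      (c1 (by omega)) (badj_symm (c3 (by omega))) (by intro x; omega) (by omega)⟩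

theorem loop6 {m : ℕ} (j : ℕ) (hj : j < m) (i : ℕ) (hij : i ≤ j) :
    ∃ L, PathOn m i (j + 1) (10 * i + 6) (10 * i + 1) L := by
  by_cases h : i = j
  · subst h
    exact ⟨_, block hj (l := [6, 3, 5, 2, 7, 4, 9, 0, 8, 1]) (by decide) (by decide) rfl rfl⟩
  · obtain ⟨L, hL⟩ := loop5 j hj (j - (i + 1)) (i + 1) (by omega)
    exact ⟨_, hL.insert (i := i) (lo' := i) (hi' := j + 1) (by omega) (p1 := [6, 3, 5, 2, 8, 0])
      (p2 := [7, 4, 9, 1]) (by decide) (by decide) (by decide) rfl rfl rfl rfl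
      (c1 (by omega)) (badj_symm (c3 (by omega))) (by intro x; omega) (by omega)⟩

theorem loop5' {m : ℕ} (j : ℕ) (hj : j < m) (i : ℕ) (hij : i ≤ j) :
    ∃ L, PathOn m i (j + 1) (10 * i + 5) (10 * i + 1) L := loop5 j hj (j - i) i (by omega)

/-- starting piece: two options with different second vertices -/
theorem partA {m i j t : ℕ} (ht : t < 5) (hij : i < j) (hj : j < m) (f : ℕ) :
    ∃ x σ ρ, (x = 5 ∨ x = 6) ∧ σ ≠ f ∧
      PathOn m i (j + 1) (10 * i + t) (10 * i + x) ((10 * i + t) :: σ :: ρ) := by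
  obtain ⟨L5, h5⟩ := loop5' (m := m) j hj (i + 1) (by omega)
  obtain ⟨L6, h6⟩ := loop6 (m := m) j hj (i + 1) (by omega)
  have hr : ∀ x, (i ≤ x ∧ x < j + 1) ↔ (x = i ∨ (i + 1 ≤ x ∧ x < j + 1)) := by intro x; omega
  have hni : ¬ (i + 1 ≤ i ∧ i < j + 1) := by omega
  have him : i + 1 < m := by omega
  have htt : t = 0 ∨ t = 1 ∨ t = 2 ∨ t = 3 ∨ t = 4 := by omega
  rcases htt with rfl | rfl | rfl | rfl | rfl
  · by_cases hf : 10 * (i + 1) + 5 = f
    · have h := h6.insert (i := i) (by omega) (p1 := [0]) (p2 := [7, 2, 8, 1, 9, 4, 6, 3, 5])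
        (by decide) (by decide) (by decide) rfl rfl rfl rfl (c2 him) (badj_symm (c3 him)) hr hni
      obtain ⟨ρ, hρ⟩ : ∃ ρ, L6 = (10 * (i + 1) + 6) :: ρ := by
        cases L6 with
        | nil => simpa using h6.hd
        | cons a l => exact ⟨l, by simpa using h6.hd⟩
      refine ⟨5, 10 * (i + 1) + 6, ρ ++ sh i [7, 2, 8, 1, 9, 4, 6, 3, 5], Or.inl rfl, by omega, ?_⟩
      rw [hρ] at h
      exact h
    · have h := h5.insert (i := i) (by omega) (p1 := [0]) (p2 := [7, 2, 8, 1, 9, 4, 6, 3, 5])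
        (by decide) (by decide) (by decide) rfl rfl rfl rfl (c1 him) (badj_symm (c3 him)) hr hni
      obtain ⟨ρ, hρ⟩ : ∃ ρ, L5 = (10 * (i + 1) + 5) :: ρ := by
        cases L5 with
        | nil => simpa using h5.hd
        | cons a l => exact ⟨l, by simpa using h5.hd⟩
      refine ⟨5, 10 * (i + 1) + 5, ρ ++ sh i [7, 2, 8, 1, 9, 4, 6, 3, 5], Or.inl rfl, hf, ?_⟩
      rw [hρ] at h
      exact h
  · by_cases hf : 10 * i + 8 = f
    · exact ⟨6, 10 * i + 9, _, Or.inr rfl, by omega, h5.rev.insert (i := i) (by omega)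
        (p1 := [1, 9, 4, 7]) (p2 := [0, 8, 2, 5, 3, 6])
        (by decide) (by decide) (by decide) rfl rfl rfl rfl (c3 him) (badj_symm (c1 him)) hr hni⟩
    · exact ⟨5, 10 * i + 8, _, Or.inl rfl, hf, h5.rev.insert (i := i) (by omega)
        (p1 := [1, 8, 2, 7]) (p2 := [0, 9, 4, 6, 3, 5])
        (by decide) (by decide) (by decide) rfl rfl rfl rfl (c3 him) (badj_symm (c1 him)) hr hni⟩
  · by_cases hf : 10 * i + 8 = f
    · exact ⟨5, 10 * i + 7, _, Or.inl rfl, by omega, h5.rev.insert (i := i) (by omega)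
        (p1 := [2, 7]) (p2 := [0, 8, 1, 9, 4, 6, 3, 5])
        (by decide) (by decide) (by decide) rfl rfl rfl rfl (c3 him) (badj_symm (c1 him)) hr hni⟩
    · exact ⟨5, 10 * i + 8, _, Or.inl rfl, hf, h5.insert (i := i) (by omega)
        (p1 := [2, 8, 1, 9, 0]) (p2 := [7, 4, 6, 3, 5])
        (by decide) (by decide) (by decide) rfl rfl rfl rfl (c1 him) (badj_symm (c3 him)) hr hni⟩
  · by_cases hf : 10 * i + 6 = f
    · exact ⟨6, 10 * i + 5, _, Or.inr rfl, by omega, h5.insert (i := i) (by omega)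
        (p1 := [3, 5, 2, 8, 1, 9, 0]) (p2 := [7, 4, 6])
        (by decide) (by decide) (by decide) rfl rfl rfl rfl (c1 him) (badj_symm (c3 him)) hr hni⟩
    · exact ⟨5, 10 * i + 6, _, Or.inl rfl, hf, h5.insert (i := i) (by omega)
        (p1 := [3, 6, 4, 9, 1, 8, 0]) (p2 := [7, 2, 5])
        (by decide) (by decide) (by decide) rfl rfl rfl rfl (c1 him) (badj_symm (c3 him)) hr hni⟩
  · by_cases hf : 10 * i + 9 = f
    · exact ⟨6, 10 * i + 7, _, Or.inr rfl, by omega, h5.rev.insert (i := i) (by omega)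
        (p1 := [4, 7]) (p2 := [0, 9, 1, 8, 2, 5, 3, 6])
        (by decide) (by decide) (by decide) rfl rfl rfl rfl (c3 him) (badj_symm (c1 him)) hr hni⟩
    · exact ⟨6, 10 * i + 9, _, Or.inr rfl, hf, h5.insert (i := i) (by omega)
        (p1 := [4, 9, 1, 8, 0]) (p2 := [7, 2, 5, 3, 6])
        (by decide) (by decide) (by decide) rfl rfl rfl rfl (c1 him) (badj_symm (c3 him)) hr hni⟩

theorem sh_append (i : ℕ) (l l' : List ℕ) : sh i (l ++ l') = sh i l ++ sh i l' := by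
  simp [sh]

/-- final piece -/
theorem partB {m i t : ℕ} (ht : t < 5) (hi1 : 1 ≤ i) (hi : i < m) (f : ℕ) :
    ∃ r σ ρ, r ≤ 1 ∧ σ ≠ f ∧
      PathOn m (i - r) (i + 1) (10 * i + 7) (10 * i + t) (ρ ++ [σ, 10 * i + t]) := by
  have htt : t = 0 ∨ t = 1 ∨ t = 2 ∨ t = 3 ∨ t = 4 := by omega
  obtain ⟨i0, rfl⟩ : ∃ i0, i = i0 + 1 := ⟨i - 1, by omega⟩
  have hU := block (m := m) (i := i0) (by omega) (l := [0, 8, 1, 9, 4, 6, 3, 5, 2, 7]) (by decide)
    (by decide) rfl rfl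
  have hr : ∀ x, (i0 + 1 - 1 ≤ x ∧ x < i0 + 1 + 1) ↔ (x = i0 + 1 ∨ (i0 ≤ x ∧ x < i0 + 1)) := by
    intro x; omega
  have hni : ¬ (i0 ≤ i0 + 1 ∧ i0 + 1 < i0 + 1) := by omega
  rcases htt with rfl | rfl | rfl | rfl | rfl
  · by_cases hf : 10 * (i0 + 1) + 8 = f
    · exact ⟨0, 10 * (i0 + 1) + 9, sh (i0 + 1) [7, 4, 6, 3, 5, 2, 8, 1], by omega, by omega,
        block hi (l := [7, 4, 6, 3, 5, 2, 8, 1, 9, 0]) (by decide) (by decide) rfl rfl⟩
    · exact ⟨0, 10 * (i0 + 1) + 8, sh (i0 + 1) [7, 2, 5, 3, 6, 4, 9, 1], by omega, hf,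
        block hi (l := [7, 2, 5, 3, 6, 4, 9, 1, 8, 0]) (by decide) (by decide) rfl rfl⟩
  · by_cases hf : 10 * (i0 + 1) + 8 = f
    · exact ⟨0, 10 * (i0 + 1) + 9, sh (i0 + 1) [7, 4, 6, 3, 5, 2, 8, 0], by omega, by omega,
        block hi (l := [7, 4, 6, 3, 5, 2, 8, 0, 9, 1]) (by decide) (by decide) rfl rfl⟩
    · exact ⟨0, 10 * (i0 + 1) + 8, sh (i0 + 1) [7, 2, 5, 3, 6, 4, 9, 0], by omega, hf,
        block hi (l := [7, 2, 5, 3, 6, 4, 9, 0, 8, 1]) (by decide) (by decide) rfl rfl⟩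
  · by_cases hf : 10 * (i0 + 1) + 8 = f
    · have h := hU.rev.insert (i := i0 + 1) hi (p1 := [7, 4, 9, 0, 8, 1]) (p2 := [6, 3, 5, 2]) (b := 2)
        (by decide) (by decide) (by decide) rfl rfl rfl rfl (badj_symm (c3 hi)) (c2 hi) hr hni
      refine ⟨1, 10 * (i0 + 1) + 5, sh (i0 + 1) [7, 4, 9, 0, 8, 1] ++
        ((sh i0 [0, 8, 1, 9, 4, 6, 3, 5, 2, 7]).reverse ++ sh (i0 + 1) [6, 3]), by omega, by omega,
        ?_⟩
      have e : sh (i0 + 1) [6, 3, 5, 2] = sh (i0 + 1) [6, 3] ++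
        [10 * (i0 + 1) + 5, 10 * (i0 + 1) + 2] := rfl
      rw [e] at h
      simpa only [List.append_assoc] using h
    · have h := hU.insert (i := i0 + 1) hi (p1 := [7, 4, 6, 3, 5]) (p2 := [1, 9, 0, 8, 2]) (b := 2)
        (by decide) (by decide) (by decide) rfl rfl rfl rfl (badj_symm (c1 hi)) (c3 hi) hr hni
      refine ⟨1, 10 * (i0 + 1) + 8, sh (i0 + 1) [7, 4, 6, 3, 5] ++
        ((sh i0 [0, 8, 1, 9, 4, 6, 3, 5, 2, 7]) ++ sh (i0 + 1) [1, 9, 0]), by omega, hf,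
        ?_⟩
      have e : sh (i0 + 1) [1, 9, 0, 8, 2] = sh (i0 + 1) [1, 9, 0] ++
        [10 * (i0 + 1) + 8, 10 * (i0 + 1) + 2] := rfl
      rw [e] at h
      simpa only [List.append_assoc] using h
  · by_cases hf : 10 * (i0 + 1) + 6 = f
    · have h := hU.insert (i := i0 + 1) hi (p1 := [7, 4, 6]) (p2 := [1, 9, 0, 8, 2, 5, 3]) (b := 3)
        (by decide) (by decide) (by decide) rfl rfl rfl rfl (badj_symm (c2 hi)) (c3 hi) hr hni
      refine ⟨1, 10 * (i0 + 1) + 5, sh (i0 + 1) [7, 4, 6] ++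
        ((sh i0 [0, 8, 1, 9, 4, 6, 3, 5, 2, 7]) ++ sh (i0 + 1) [1, 9, 0, 8, 2]), by omega,
        by omega, ?_⟩
      have e : sh (i0 + 1) [1, 9, 0, 8, 2, 5, 3] = sh (i0 + 1) [1, 9, 0, 8, 2] ++
        [10 * (i0 + 1) + 5, 10 * (i0 + 1) + 3] := rfl
      rw [e] at h
      simpa only [List.append_assoc] using h
    · have h := hU.insert (i := i0 + 1) hi (p1 := [7, 2, 5]) (p2 := [1, 8, 0, 9, 4, 6, 3]) (b := 3)
        (by decide) (by decide) (by decide) rfl rfl rfl rfl (badj_symm (c1 hi)) (c3 hi) hr hni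
      refine ⟨1, 10 * (i0 + 1) + 6, sh (i0 + 1) [7, 2, 5] ++
        ((sh i0 [0, 8, 1, 9, 4, 6, 3, 5, 2, 7]) ++ sh (i0 + 1) [1, 8, 0, 9, 4]), by omega,
        hf, ?_⟩
      have e : sh (i0 + 1) [1, 8, 0, 9, 4, 6, 3] = sh (i0 + 1) [1, 8, 0, 9, 4] ++
        [10 * (i0 + 1) + 6, 10 * (i0 + 1) + 3] := rfl
      rw [e] at h
      simpa only [List.append_assoc] using h
  · by_cases hf : 10 * (i0 + 1) + 6 = f
    · have h := hU.insert (i := i0 + 1) hi (p1 := [7, 2, 5, 3, 6]) (p2 := [1, 8, 0, 9, 4]) (b := 4)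
        (by decide) (by decide) (by decide) rfl rfl rfl rfl (badj_symm (c2 hi)) (c3 hi) hr hni
      refine ⟨1, 10 * (i0 + 1) + 9, sh (i0 + 1) [7, 2, 5, 3, 6] ++
        ((sh i0 [0, 8, 1, 9, 4, 6, 3, 5, 2, 7]) ++ sh (i0 + 1) [1, 8, 0]), by omega,
        by omega, ?_⟩
      have e : sh (i0 + 1) [1, 8, 0, 9, 4] = sh (i0 + 1) [1, 8, 0] ++
        [10 * (i0 + 1) + 9, 10 * (i0 + 1) + 4] := rfl
      rw [e] at h
      simpa only [List.append_assoc] using h
    · have h := hU.rev.insert (i := i0 + 1) hi (p1 := [7, 2, 8, 0, 9, 1]) (p2 := [5, 3, 6, 4]) (b := 4)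
        (by decide) (by decide) (by decide) rfl rfl rfl rfl (badj_symm (c3 hi)) (c1 hi) hr hni
      refine ⟨1, 10 * (i0 + 1) + 6, sh (i0 + 1) [7, 2, 8, 0, 9, 1] ++
        ((sh i0 [0, 8, 1, 9, 4, 6, 3, 5, 2, 7]).reverse ++ sh (i0 + 1) [5, 3]), by omega,
        hf, ?_⟩
      have e : sh (i0 + 1) [5, 3, 6, 4] = sh (i0 + 1) [5, 3] ++
        [10 * (i0 + 1) + 6, 10 * (i0 + 1) + 4] := rfl
      rw [e] at h
      simpa only [List.append_assoc] using h

/-- single strand to the left end -/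
theorem leftPass {m : ℕ} : ∀ i, i < m → ∃ L, PathOn m 0 (i + 1) (10 * i) 5 L := by
  intro i
  induction i with
  | zero =>
    intro hi
    exact ⟨_, block hi (l := [0, 9, 1, 8, 2, 7, 4, 6, 3, 5]) (by decide) (by decide) rfl rfl⟩
  | succ i ih =>
    intro hi
    obtain ⟨L, hL⟩ := ih (by omega)
    have h1 := block hi (l := [0, 9, 1, 8, 2, 7, 4, 6, 3, 5]) (by decide) (by decide) rfl rfl
    exact ⟨_, h1.append hL (badj_symm (c1 hi)) (by intro j; omega) (by intro j; omega)⟩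

/-- single strand from the right end -/
theorem rightPass {m : ℕ} (hm : 0 < m) : ∀ k i, i + k + 1 = m →
    ∃ L, PathOn m i m (10 * (m - 1) + 7) (10 * i + 1) L := by
  intro k
  induction k with
  | zero =>
    intro i hi
    have h := block (m := m) (i := i) (by omega) (l := [7, 2, 5, 3, 6, 4, 9, 0, 8, 1])
      (by decide) (by decide) rfl rfl
    have e1 : i + 1 = m := by omega
    have e2 : m - 1 = i := by omega
    rw [e1] at h
    rw [e2]
    exact ⟨_, h⟩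
  | succ k ih =>
    intro i hi
    obtain ⟨L, hL⟩ := ih (i + 1) (by omega)
    have h1 := block (m := m) (i := i) (by omega) (l := [7, 2, 5, 3, 6, 4, 9, 0, 8, 1]) (by decide)
      (by decide) rfl rfl
    exact ⟨_, hL.append h1 (badj_symm (c3 (by omega))) (by intro j; omega) (by intro j; omega)⟩

/-- The Hamiltonian paths of the base graph. -/
theorem base_path {m i i' t t' : ℕ} (f f' : ℕ) (ht : t < 5) (ht' : t' < 5) (hi : 1 ≤ i)
    (hii' : i + 3 ≤ i') (hi' : i' + 1 < m) :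
    ∃ σ σ' π, σ ≠ f ∧ σ' ≠ f' ∧
      ((10 * i + t) :: ((σ :: (π ++ [σ'])) ++ [10 * i' + t'])).IsChain (badj m) ∧
      ((10 * i + t) :: ((σ :: (π ++ [σ'])) ++ [10 * i' + t'])).Nodup ∧
      ∀ v, v ∈ (10 * i + t) :: ((σ :: (π ++ [σ'])) ++ [10 * i' + t']) ↔ v / 10 < m ∨ v = 10 * m := by
  obtain ⟨r, σ', ρ', hr, hσ', hB⟩ := partB (m := m) (i := i') ht' (by omega) (by omega) f'
  obtain ⟨x, σ, ρ, hx, hσ, hA⟩ := partA (m := m) (i := i) (j := i' - r - 1) ht (by omega)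
    (by omega) f
  obtain ⟨LL, hLL⟩ := leftPass (m := m) (i - 1) (by omega)
  obtain ⟨LR, hLR⟩ := rightPass (m := m) (by omega) (m - 1 - (i' + 1)) (i' + 1) (by omega)
  have e1 : i - 1 + 1 = i := by omega
  have e2 : i' - r - 1 + 1 = i' - r := by omega
  rw [e2] at hA
  -- first half
  have h1 : PathOn m 0 (i' - r) (10 * i + t) 5 (((10 * i + t) :: σ :: ρ) ++ LL) := by
    refine hA.append hLL ?_ (by intro j; omega) (by intro j; omega)
    rcases hx with rfl | rfl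
    · have := badj_symm (c1 (m := m) (i := i - 1) (by omega))
      rwa [e1] at this
    · have := badj_symm (c2 (m := m) (i := i - 1) (by omega))
      rwa [e1] at this
  have h2 : PathOn m (i' - r) m (10 * (m - 1) + 7) (10 * i' + t') (LR ++ (ρ' ++ [σ', 10 * i' + t'])) :=
    hLR.append hB (badj_symm (c3 (by omega))) (by intro j; omega) (by intro j; omega)
  have hlist : (10 * i + t) :: ((σ :: ((ρ ++ LL ++ [10 * m] ++ LR ++ ρ') ++ [σ'])) ++
      [10 * i' + t']) = (((10 * i + t) :: σ :: ρ) ++ LL) ++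
      ([10 * m] ++ (LR ++ (ρ' ++ [σ', 10 * i' + t']))) := by
    simp
  obtain ⟨P1, hP1⟩ : ∃ P1, P1 = ((10 * i + t) :: σ :: ρ) ++ LL := ⟨_, rfl⟩
  obtain ⟨P2, hP2⟩ : ∃ P2, P2 = LR ++ (ρ' ++ [σ', 10 * i' + t']) := ⟨_, rfl⟩
  rw [← hP1] at h1 hlist
  rw [← hP2] at h2 hlist
  refine ⟨σ, σ', ρ ++ LL ++ [10 * m] ++ LR ++ ρ', hσ, hσ', ?_, ?_, ?_⟩
  · rw [hlist, List.isChain_append, List.isChain_append]
    refine ⟨h1.ch, ⟨by simp, h2.ch, ?_⟩, ?_⟩
    · intro v hv w hw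
      rw [h2.hd] at hw
      simp only [List.getLast?_singleton, Option.mem_def, Option.some.injEq] at hv hw
      subst hv hw
      exact Or.inr (Or.inr (Or.inr (Or.inr ⟨rfl, rfl⟩)))
    · intro v hv w hw
      rw [h1.lt] at hv
      simp only [List.cons_append, List.nil_append, List.head?_cons, Option.mem_def,
        Option.some.injEq] at hv hw
      subst hv hw
      exact Or.inr (Or.inl (Or.inr (Or.inl ⟨rfl, rfl⟩)))
  · rw [hlist, List.nodup_append, List.nodup_append]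
    refine ⟨h1.nd, ⟨by simp, h2.nd, ?_⟩, ?_⟩
    · intro v hv w hw hvw
      subst hvw
      rw [List.mem_singleton] at hv
      rw [h2.mem, hv] at hw
      omega
    · intro v hv w hw hvw
      subst hvw
      rw [h1.mem] at hv
      rcases List.mem_append.mp hw with h | h
      · rw [List.mem_singleton] at h
        omega
      · rw [h2.mem] at h
        omega
  · intro v
    rw [hlist, List.mem_append, List.mem_append, h1.mem, h2.mem, List.mem_singleton]
    omega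

end Pool.Agent.Helper74.HamOne
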