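import Pool.Agent.Helper74.HamSat.NonHam

set_option autoImplicit false
open Classical

namespace Pool.Agent.Helper74.HamOne

open Pool.Agent.Helper74.HamSat

/-- A blown-up bipartite base graph: the vertices are split into groups, and a vertex of group `g`
with `port v = some u` is available for the connection between the groups `g` and `u`. -/
structure Blow (n s : ℕ) where
  grp : Fin n → ℕ
  port : Fin n → Option ℕ
  Tg : Finset ℕ
  Qg : Finset ℕ
  nbs : ℕ → Finset ℕ
  port_nbs : ∀ v u, port v = some u → u ∈ nbs (grp v)
  TQ : ∀ g ∈ Tg, ∀ u ∈ nbs g, u ∈ Qg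
  degQ : ∀ g ∈ Qg, (nbs g).card ≤ 3
  lt : Qg.card < Tg.card
  two : 2 ≤ Qg.card
  disj : ∀ g ∈ Tg, g ∉ Qg
  portc : ∀ g u, (Finset.univ.filter (fun v : Fin n => grp v = g ∧ port v = some u)).card ≤ s
  core : ∀ g, g ∈ Tg ∨ g ∈ Qg → ∃ v, grp v = g ∧ port v = none

namespace Blow

variable {n s : ℕ} (G : Blow n s)

/-- `x` belongs to the connection between `g` and `u` -/
def conn (g u : ℕ) (x : Fin n) : Prop :=
  (G.grp x = g ∧ G.port x = some u) ∨ (G.grp x = u ∧ G.port x = some g)

noncomputable def H1 : Finset (Finset (Fin n)) :=
  Finset.univ.filter (fun f => f.card = s + 1 ∧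
    ((∃ g, ∀ v ∈ f, G.grp v = g) ∨ ∃ g u, ∀ v ∈ f, G.conn g u v))

theorem circ_inj {c : ℕ → Fin n} (hc : Circ n c) {x y z : ℕ} (hy : z ≤ x) (hy2 : x < z + n)
    (hx : z ≤ y) (hx2 : y < z + n) (h : c x = c y) : x = y := by
  have h1 := (hc.eq_iff x y).mp h
  obtain ⟨a, rfl⟩ := Nat.exists_eq_add_of_le hy
  obtain ⟨b, rfl⟩ := Nat.exists_eq_add_of_le hx
  have h2 : a % n = b % n := Nat.ModEq.add_left_cancel' _ h1
  rw [Nat.mod_eq_of_lt (by omega), Nat.mod_eq_of_lt (by omega)] at h2
  omega

/-- two distinct windows cannot both lie in a small set -/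
theorem once (hs : 1 ≤ s) (hn : 3 * s ≤ n) {c : ℕ → Fin n} (hc : Circ n c) {F : Finset (Fin n)}
    (hF : F.card ≤ 2 * s) {i j N' : ℕ} (hN : N' * s = n) (hij : i < j) (hj : j < N')
    (hi1 : W c (s + 1) s i ⊆ F) (hj1 : W c (s + 1) s j ⊆ F) : False := by
  have hijs : i * s + s ≤ j * s := by
    have := Nat.mul_le_mul_right s hij
    rwa [Nat.succ_mul] at this
  have hjs : j * s + s ≤ n := by
    have := Nat.mul_le_mul_right s hj
    rwa [Nat.succ_mul, hN] at this
  obtain ⟨a, ha, ha1, ha2⟩ : ∃ a ≤ 1, i * s + s < j * s + a ∧ j * s + a + s ≤ i * s + n := by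
    by_cases h : j = i + 1
    · subst h
      have : (i + 1) * s = i * s + s := by ring
      exact ⟨1, le_rfl, by omega, by omega⟩
    · have h2 : (i + 2) * s ≤ j * s := Nat.mul_le_mul_right s (by omega)
      have h3 : (i + 2) * s = i * s + 2 * s := by ring
      exact ⟨0, by omega, by omega, by omega⟩
  let A := (Finset.Icc (i * s) (i * s + s)) ∪ (Finset.Ico (j * s + a) (j * s + a + s))
  have hA : A.card = 2 * s + 1 := by
    rw [Finset.card_union_of_disjoint, Nat.card_Icc, Nat.card_Ico]
    · omega
    · rw [Finset.disjoint_left]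
      intro x hx hx'
      rw [Finset.mem_Icc] at hx
      rw [Finset.mem_Ico] at hx'
      omega
  have hinj : Set.InjOn c (A : Set ℕ) := by
    intro x hx y hy hxy
    simp only [A, Finset.coe_union, Set.mem_union, Finset.coe_Icc, Finset.coe_Ico, Set.mem_Icc,
      Set.mem_Ico] at hx hy
    exact circ_inj (z := i * s) hc (by omega) (by omega) (by omega) (by omega) hxy
  have hsub : A.image c ⊆ F := by
    intro v hv
    obtain ⟨x, hx, rfl⟩ := Finset.mem_image.mp hv
    simp only [A, Finset.mem_union, Finset.mem_Icc, Finset.mem_Ico] at hx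
    rcases hx with hx | hx
    · apply hi1
      refine Finset.mem_image.mpr ⟨x - i * s, Finset.mem_range.mpr (by omega), ?_⟩
      congr 1
      omega
    · apply hj1
      refine Finset.mem_image.mpr ⟨x - j * s, Finset.mem_range.mpr (by omega), ?_⟩
      congr 1
      omega
  have h1 := Finset.card_le_card hsub
  rw [Finset.card_image_of_injOn hinj] at h1
  omega

theorem not_ham (hs : 1 ≤ s) (hn : 3 * s ≤ n) (hd : s ∣ n) : ¬ Ham n (s + 1) s G.H1 := by
  rintro ⟨c, hc, hw0⟩
  have hn0 : 0 < n := by omega
  have hw := W_all hc hd hs hn0 hw0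
  set N' := n / s with hN'
  have hN : N' * s = n := Nat.div_mul_cancel hd
  have hNpos : 0 < N' := by
    rcases Nat.eq_zero_or_pos N' with h | h
    · rw [h] at hN; omega
    · exact h
  let lam : ℕ → ℕ := fun i => G.grp (c (i * s))
  have hfirst : ∀ i, c (i * s) ∈ W c (s + 1) s i := fun i =>
    Finset.mem_image.mpr ⟨0, Finset.mem_range.mpr (by omega), rfl⟩
  have hlast : ∀ i, c ((i + 1) * s) ∈ W c (s + 1) s i := fun i =>
    Finset.mem_image.mpr ⟨s, Finset.mem_range.mpr (by omega), by congr 1; ring⟩
  have hper : ∀ i, lam (i + N') = lam i := by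
    intro i
    simp only [lam]
    have : (i + N') * s = i * s + n := by rw [Nat.add_mul, hN]
    rw [this, hc.per]
  -- crossing windows
  have hcross : ∀ i, lam i ≠ lam (i + 1) → ∀ v ∈ W c (s + 1) s i, G.conn (lam i) (lam (i + 1)) v := by
    intro i hne
    rcases (Finset.mem_filter.mp (hw i)).2.2 with ⟨g, hg⟩ | ⟨g, u, hgu⟩
    · exact absurd ((hg _ (hfirst i)).trans (hg _ (hlast i)).symm) hne
    · have h1 := hgu _ (hfirst i)
      have h2 := hgu _ (hlast i)
      have h1' : lam i = g ∨ lam i = u := h1.imp (fun h => h.1) (fun h => h.1)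
      have h2' : lam (i + 1) = g ∨ lam (i + 1) = u := h2.imp (fun h => h.1) (fun h => h.1)
      rcases h1' with h1' | h1' <;> rcases h2' with h2' | h2'
      · exact absurd (h1'.trans h2'.symm) hne
      · rw [h1', h2']; exact hgu
      · rw [h1', h2']; intro v hv; exact (hgu v hv).symm
      · exact absurd (h1'.trans h2'.symm) hne
  have honce : ∀ g u i j, i < j → j < N' → (∀ v ∈ W c (s + 1) s i, G.conn g u v) →
      (∀ v ∈ W c (s + 1) s j, G.conn g u v) → False := by
    intro g u i j hij hj h1 h2
    refine once hs hn hc (F := Finset.univ.filter (fun v => G.conn g u v)) ?_ hN hij hj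
      (fun v hv => Finset.mem_filter.mpr ⟨Finset.mem_univ _, h1 v hv⟩)
      (fun v hv => Finset.mem_filter.mpr ⟨Finset.mem_univ _, h2 v hv⟩)
    have : Finset.univ.filter (fun v => G.conn g u v) ⊆
        Finset.univ.filter (fun v : Fin n => G.grp v = g ∧ G.port v = some u) ∪
        Finset.univ.filter (fun v : Fin n => G.grp v = u ∧ G.port v = some g) := by
      intro v hv
      rw [Finset.mem_union, Finset.mem_filter, Finset.mem_filter]
      exact ((Finset.mem_filter.mp hv).2).imp (fun h => ⟨Finset.mem_univ _, h⟩)
        (fun h => ⟨Finset.mem_univ _, h⟩)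
    have h3 := Finset.card_le_card this
    have h4 := Finset.card_union_le
      (Finset.univ.filter (fun v : Fin n => G.grp v = g ∧ G.port v = some u))
      (Finset.univ.filter (fun v : Fin n => G.grp v = u ∧ G.port v = some g))
    have h5 := G.portc g u
    have h6 := G.portc u g
    omega
  have hvis : ∀ g, g ∈ G.Tg ∨ g ∈ G.Qg → ∃ i < N', lam i = g := by
    intro g hg
    obtain ⟨v, hv1, hv2⟩ := G.core g hg
    obtain ⟨t, ht, htv⟩ := hc.surj v
    have h1 : t / s < N' := by
      rw [Nat.div_lt_iff_lt_mul hs, hN]; exact ht
    refine ⟨t / s, h1, ?_⟩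
    have hmem : v ∈ W c (s + 1) s (t / s) := by
      refine Finset.mem_image.mpr ⟨t % s, Finset.mem_range.mpr (by
        have := Nat.mod_lt t hs; omega), ?_⟩
      rw [← htv]
      congr 1
      rw [Nat.mul_comm]
      exact Nat.div_add_mod t s
    rcases (Finset.mem_filter.mp (hw (t / s))).2.2 with ⟨g', hg'⟩ | ⟨g', u, hgu⟩
    · exact ((hg' _ (hfirst _)).trans (hg' _ hmem).symm).trans hv1
    · rcases hgu _ hmem with h | h
      · rw [hv2] at h; simp at h
      · rw [hv2] at h; simp at h
  -- counting
  let out : ℕ → Finset ℕ := fun g => (Finset.range N').filter (fun i => lam i = g ∧ lam (i + 1) ≠ g)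
  let inn : ℕ → Finset ℕ := fun g => (Finset.range N').filter (fun i => lam i ≠ g ∧ lam (i + 1) = g)
  have hbal : ∀ g, (out g).card = (inn g).card := by
    intro g
    have h1 : ((Finset.range N').filter (fun i => lam i = g)).card =
        ((Finset.range N').filter (fun i => lam (i + 1) = g)).card := by
      rw [Finset.card_filter, Finset.card_filter]
      have e1 := Finset.sum_range_succ (fun i => if lam i = g then 1 else 0) N'
      have e2 := Finset.sum_range_succ' (fun i => if lam i = g then 1 else 0) N'
      have e3 : lam N' = lam 0 := by have := hper 0; rwa [Nat.zero_add] at this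
      simp only [e3] at e1
      omega
    have h2 : ((Finset.range N').filter (fun i => lam i = g)).card =
        (out g).card + ((Finset.range N').filter (fun i => lam i = g ∧ lam (i + 1) = g)).card := by
      rw [← Finset.card_union_of_disjoint]
      · congr 1
        ext i
        simp only [out, Finset.mem_filter, Finset.mem_union]
        tauto
      · rw [Finset.disjoint_left]
        intro i hi hi'
        exact (Finset.mem_filter.mp hi).2.2 (Finset.mem_filter.mp hi').2.2
    have h3 : ((Finset.range N').filter (fun i => lam (i + 1) = g)).card =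
        (inn g).card + ((Finset.range N').filter (fun i => lam i = g ∧ lam (i + 1) = g)).card := by
      rw [← Finset.card_union_of_disjoint]
      · congr 1
        ext i
        simp only [inn, Finset.mem_filter, Finset.mem_union]
        tauto
      · rw [Finset.disjoint_left]
        intro i hi hi'
        exact (Finset.mem_filter.mp hi).2.1 (Finset.mem_filter.mp hi').2.1
    omega
  -- each group is left at least once
  have hout : ∀ g, g ∈ G.Tg ∨ g ∈ G.Qg → (out g).Nonempty := by
    intro g hg
    by_contra hcon
    rw [Finset.not_nonempty_iff_eq_empty] at hcon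
    have hstep : ∀ i, lam i = g → lam (i + 1) = g := by
      intro i hi
      -- reduce modulo N'
      have hq : ∀ q j, lam (j + q * N') = lam j := by
        intro q
        induction q with
        | zero => intro j; simp
        | succ q ih => intro j; rw [Nat.succ_mul, ← Nat.add_assoc, hper, ih]
      have hi' : lam (i % N') = g := by
        have := hq (i / N') (i % N')
        rw [Nat.mod_add_div'] at this
        rw [← this]; exact hi
      have h1 : lam (i % N' + 1) = g := by
        by_contra hne
        have : i % N' ∈ out g := Finset.mem_filter.mpr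
          ⟨Finset.mem_range.mpr (Nat.mod_lt _ hNpos), hi', hne⟩
        rw [hcon] at this
        simp at this
      have := hq (i / N') (i % N' + 1)
      have e : i % N' + 1 + i / N' * N' = i + 1 := by
        have := Nat.mod_add_div' i N'
        omega
      rw [e] at this
      rw [this]; exact h1
    obtain ⟨i, hi, hig⟩ := hvis g hg
    have hall : ∀ t, lam (i + t) = g := by
      intro t
      induction t with
      | zero => exact hig
      | succ t ih => exact hstep _ ih
    -- another group
    obtain ⟨g', hg', hne⟩ : ∃ g' ∈ G.Qg, g' ≠ g := by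
      have h1 : 1 < G.Qg.card := by have := G.two; omega
      exact Finset.exists_mem_ne h1 g
    obtain ⟨j, hj, hjg⟩ := hvis g' (Or.inr hg')
    have h2 := hall (j + N' - i)
    have e : i + (j + N' - i) = j + N' := by omega
    rw [e, hper, hjg] at h2
    exact hne h2
  -- crossing at a group of the second kind
  have hdeg : ∀ g, (out g).card + (inn g).card ≤ (G.nbs g).card := by
    intro g
    rw [← Finset.card_union_of_disjoint]
    · refine Finset.card_le_card_of_injOn (fun i => if lam i = g then lam (i + 1) else lam i) ?_ ?_
      · intro i hi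
        rcases Finset.mem_union.mp hi with h | h
        · obtain ⟨_, h1, h2⟩ := Finset.mem_filter.mp h
          have hne : lam i ≠ lam (i + 1) := by rw [h1]; exact fun h => h2 h.symm
          simp only [h1, if_true]
          have h3 := hcross i hne _ (hfirst i)
          rcases h3 with h3 | h3
          · have := G.port_nbs _ _ h3.2
            rw [h3.1] at this
            rw [h1] at this
            exact this
          · exact absurd h3.1 (fun h => hne h)
        · obtain ⟨_, h1, h2⟩ := Finset.mem_filter.mp h
          have hne : lam i ≠ lam (i + 1) := by rw [h2]; exact h1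
          simp only [h1, if_false]
          have h3 := hcross i hne _ (hlast i)
          rcases h3 with h3 | h3
          · exact absurd h3.1.symm hne
          · have := G.port_nbs _ _ h3.2
            rw [h3.1, h2] at this
            exact this
      · intro i hi j hj heq
        have key : ∀ i ∈ out g ∪ inn g, ∀ v ∈ W c (s + 1) s i,
            G.conn g (if lam i = g then lam (i + 1) else lam i) v := by
          intro i hi v hv
          rcases Finset.mem_union.mp hi with h | h
          · obtain ⟨_, h1, h2⟩ := Finset.mem_filter.mp h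
            have hne : lam i ≠ lam (i + 1) := by rw [h1]; exact fun h => h2 h.symm
            have := hcross i hne v hv
            rw [if_pos h1]
            rwa [h1] at this
          · obtain ⟨_, h1, h2⟩ := Finset.mem_filter.mp h
            have hne : lam i ≠ lam (i + 1) := by rw [h2]; exact h1
            have := hcross i hne v hv
            rw [if_neg h1]
            rw [h2] at this
            exact this.symm
        have hlt : ∀ i ∈ out g ∪ inn g, i < N' := by
          intro i hi
          rcases Finset.mem_union.mp hi with h | h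
          · exact Finset.mem_range.mp (Finset.mem_filter.mp h).1
          · exact Finset.mem_range.mp (Finset.mem_filter.mp h).1
        simp only [Finset.mem_coe] at hi hj
        have k1 := key i hi
        have k2 := key j hj
        simp only at heq
        rw [heq] at k1
        rcases lt_trichotomy i j with h | h | h
        · exact (honce _ _ i j h (hlt j hj) k1 k2).elim
        · exact h
        · exact (honce _ _ j i h (hlt i hi) k2 k1).elim
    · rw [Finset.disjoint_left]
      intro i hi hi'
      exact (Finset.mem_filter.mp hi').2.1 (Finset.mem_filter.mp hi).2.1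
  have hinnQ : ∀ g ∈ G.Qg, (inn g).card ≤ 1 := by
    intro g hg
    have h1 := hdeg g
    have h2 := G.degQ g hg
    have h3 := hbal g
    omega
  -- final count
  let OT : Finset ℕ := (Finset.range N').filter (fun i => lam i ∈ G.Tg ∧ lam (i + 1) ≠ lam i)
  have h1 : G.Tg.card ≤ OT.card := by
    have : G.Tg ⊆ OT.image lam := by
      intro g hg
      obtain ⟨i, hi⟩ := hout g (Or.inl hg)
      obtain ⟨hi1, hi2, hi3⟩ := Finset.mem_filter.mp hi
      refine Finset.mem_image.mpr ⟨i, Finset.mem_filter.mpr ⟨hi1, ?_, ?_⟩, hi2⟩
      · rw [hi2]; exact hg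
      · rw [hi2]; exact hi3
    exact (Finset.card_le_card this).trans Finset.card_image_le
  have h2 : OT ⊆ G.Qg.biUnion inn := by
    intro i hi
    obtain ⟨hi1, hi2, hi3⟩ := Finset.mem_filter.mp hi
    have h3 := hcross i (fun h => hi3 h.symm) _ (hfirst i)
    have h4 : lam (i + 1) ∈ G.nbs (lam i) := by
      rcases h3 with h3 | h3
      · have := G.port_nbs _ _ h3.2
        rw [h3.1] at this
        exact this
      · exact absurd h3.1 (fun h => hi3 h.symm)
    refine Finset.mem_biUnion.mpr ⟨lam (i + 1), G.TQ _ hi2 _ h4, ?_⟩
    exact Finset.mem_filter.mpr ⟨hi1, fun h => hi3 h.symm, rfl⟩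
  have h3 : OT.card ≤ G.Qg.card := by
    refine (Finset.card_le_card h2).trans (Finset.card_biUnion_le.trans ?_)
    refine (Finset.sum_le_card_nsmul _ _ 1 hinnQ).trans (by simp)
  have := G.lt
  omega

end Blow

end Pool.Agent.Helper74.HamOne
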