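import Pool.Agent.Helper74.HamOne.Route

set_option autoImplicit false
open Classical

namespace Pool.Agent.Helper74.HamOne

open Pool.Agent.Helper74.HamSat

theorem ham_one {n s : ℕ} (hs : 1 ≤ s) (hd : s ∣ n) (hn : s + 1 ≤ n) {H : Finset (Finset (Fin n))}
    {e : Finset (Fin n)} (heH : e ∈ H) (a b : Fin n) (Il M : List (Fin n))
    (hnd : (a :: (Il ++ (b :: M))).Nodup) (hlen : (a :: (Il ++ (b :: M))).length = n)
    (hIl : Il.length + 1 = s) (he : (a :: (Il ++ [b])).toFinset = e)
    (haw : AW (s + 1) s 0 (· ∈ H) (b :: (M ++ [a]))) : Ham n (s + 1) s H := by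
  have hlen' : M.length + 1 + s = n := by
    simp only [List.length_cons, List.length_append] at hlen
    omega
  refine ham_of_list hs hn (a :: (Il ++ (b :: M))) hnd hlen (by omega) ?_
  have ht : (a :: (Il ++ (b :: M))).take (s + 1) = a :: (Il ++ [b]) := by
    have e1 : a :: (Il ++ (b :: M)) = (a :: (Il ++ [b])) ++ M := by simp
    rw [e1, List.take_append_of_le_length (by simp; omega), List.take_of_length_le (by simp; omega)]
  rw [ht]
  intro p hp hpl
  have hp' : s ∣ p := by simpa using hp
  have hpn : p ≤ n := by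
    simp only [List.length_append, List.length_cons, List.length_nil] at hpl
    omega
  have hT : a :: (Il ++ (b :: M)) ++ (a :: (Il ++ [b])) =
      (a :: Il) ++ ((b :: (M ++ [a])) ++ (Il ++ [b])) := by simp
  rcases Nat.eq_zero_or_pos p with h0 | hpos
  · subst h0
    have : ((a :: (Il ++ (b :: M)) ++ (a :: (Il ++ [b]))).drop 0).take (s + 1) =
        a :: (Il ++ [b]) := by
      rw [List.drop_zero, List.take_append_of_le_length (by rw [hlen]; omega), ht]
    rw [this, he]
    exact heH
  have hsp : s ≤ p := Nat.le_of_dvd hpos hp'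
  by_cases hpn2 : p + s ≤ n
  · have h1 : (a :: (Il ++ (b :: M)) ++ (a :: (Il ++ [b]))).drop p =
        (b :: (M ++ [a])).drop (p - s) ++ (Il ++ [b]) := by
      rw [hT, List.drop_append, List.drop_eq_nil_of_le (by simp; omega), List.nil_append]
      have : p - (a :: Il).length = p - s := by simp; omega
      rw [this, List.drop_append_of_le_length (by simp; omega)]
    rw [h1, List.take_append_of_le_length (by rw [List.length_drop]; simp; omega)]
    refine haw (p - s) ?_ (by simp; omega)
    rw [Nat.add_zero]
    exact (Nat.dvd_sub hp' (dvd_refl s))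
  · have h1 : p = n := by
      obtain ⟨q, hq⟩ : s ∣ n - p := Nat.dvd_sub hd hp'
      have : q = 0 := by
        rcases Nat.eq_zero_or_pos q with h | h
        · exact h
        · have : s ≤ s * q := Nat.le_mul_of_pos_right _ h
          omega
      rw [this] at hq
      omega
    have h2 : (a :: (Il ++ (b :: M)) ++ (a :: (Il ++ [b]))).drop p = a :: (Il ++ [b]) := by
      have hpl' : p = (a :: (Il ++ (b :: M))).length := by rw [h1, hlen]
      rw [hpl']
      exact List.drop_left
    rw [h2, List.take_of_length_le (by simp; omega), he]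
    exact heH

namespace Blow

variable {n s : ℕ} {G : Blow n s}

/-- a starting (or, reversed, final) piece -/
structure Start (G : Blow n s) (e : Finset (Fin n)) (b : Fin n) (t f h : ℕ) (L : List (Fin n))
    (I : Finset (Fin n)) : Prop where
  ready : Ready G t h I.card L
  hd : ∃ L', L = b :: L'
  e_iff : ∀ x ∈ L, x ∈ e ↔ x = b
  Ie : I ⊆ e
  bI : b ∉ I
  cover : ∀ x, G.grp x = t → x ∉ e → x ∈ L
  coverI : ∀ x ∈ e, G.grp x = t → x = b ∨ x ∈ I
  wh : ∀ x, x ∈ L ∨ x ∈ I → G.grp x = t ∨ (G.grp x = f ∧ (G.port x = none ∨ G.port x = some t))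
  wh2 : ∀ x, x ∈ L ∨ x ∈ I → G.grp x = t ∨ G.grp x = G.grp b
  dvd : ∀ g, g ≠ t → s ∣ (L.toFinset.filter (fun x => G.grp x = g)).card +
    (I.filter (fun x => G.grp x = g)).card
  big : s + 1 ≤ L.length

/-- full connections -/
def adj (G : Blow n s) (g u : ℕ) : Prop :=
  (Finset.univ.filter (fun x : Fin n => G.grp x = g ∧ G.port x = some u)).card = s ∧
  (Finset.univ.filter (fun x : Fin n => G.grp x = u ∧ G.port x = some g)).card = s

theorem chainOK_of {X : ℕ → Finset (Fin n)} {d : ℕ → ℕ} {z : ℕ} {R : ℕ → ℕ → Prop}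
    (hR : ∀ p q, R p q → R q p) (S : ℕ → Prop)
    (hAv : ∀ q p, S q → R q p → s ≤ ((X q).filter (fun x => G.port x = some p)).card + d q) :
    ∀ (π : List ℕ) (g : ℕ), (∀ q ∈ π, S q) → (g :: (π ++ [z])).IsChain R →
      (g :: (π ++ [z])).Nodup → ChainOK G X d z g π := by
  intro π
  induction π with
  | nil => intro g _ _ _; trivial
  | cons g1 π ih =>
    intro g hS hch hnd
    rw [List.cons_append, List.isChain_cons_cons] at hch
    have h3 : g ≠ π.headD z ∧ R g1 (π.headD z) := by
      cases π with
      | nil =>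
        simp only [List.headD_nil]
        rw [List.nil_append, List.isChain_cons_cons] at hch
        simp only [List.cons_append, List.nil_append, List.nodup_cons, List.mem_cons] at hnd
        exact ⟨fun h => hnd.1 (by simp [h]), hch.2.1⟩
      | cons g2 π =>
        simp only [List.headD_cons]
        rw [List.cons_append, List.isChain_cons_cons] at hch
        simp only [List.cons_append, List.nodup_cons, List.mem_cons] at hnd
        exact ⟨fun h => hnd.1 (by simp [h]), hch.2.1⟩
    refine ⟨hAv g1 g (hS g1 (by simp)) (hR _ _ hch.1), hAv g1 _ (hS g1 (by simp)) h3.2, h3.1, ?_⟩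
    refine ih g1 (fun q hq => hS q (by simp [hq])) hch.2 ?_
    rw [List.cons_append, List.nodup_cons] at hnd
    exact hnd.2

theorem main_route (hs : 1 ≤ s) (hd : s ∣ n) (hn : s + 1 ≤ n)
    (hW : ∀ g, s ∣ (Finset.univ.filter (fun x : Fin n => G.grp x = g)).card)
    {e : Finset (Fin n)} (hek : e.card = s + 1) {a b : Fin n} (ha : a ∈ e) (hb : b ∈ e)
    (hab : a ≠ b) {t f h2 t' f' hl : ℕ} {L0 La : List (Fin n)} {I0 Ia : Finset (Fin n)}
    (S0 : Start G e b t f h2 L0 I0) (Sa : Start G e a t' f' hl La Ia)
    (hdisj : ∀ x, (x ∈ L0 ∨ x ∈ I0) → ¬ (x ∈ La ∨ x ∈ Ia))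
    (π : List ℕ) (hπ : π.headD t' = h2) (hπl : (t :: π).getLast (by simp) = hl)
    (hnd : (t :: (π ++ [t'])).Nodup)
    (hch : (t :: (π ++ [t'])).IsChain (fun p q => G.adj p q ∧ ¬ (p = t ∧ q = f) ∧
      ¬ (p = f ∧ q = t) ∧ ¬ (p = t' ∧ q = f') ∧ ¬ (p = f' ∧ q = t')))
    (hcov : ∀ x, G.grp x = t ∨ G.grp x = t' ∨ G.grp x ∈ π) :
    Ham n (s + 1) s (insert e G.H1) := by
  let X : ℕ → Finset (Fin n) := fun g => Finset.univ.filter (fun x => G.grp x = g ∧ x ∉ e ∧
    x ∉ L0 ∧ x ∉ La)
  let D : ℕ → Finset (Fin n) := fun g => Finset.univ.filter (fun x => G.grp x = g ∧ x ∈ e ∧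
    x ≠ a ∧ x ≠ b ∧ x ∉ I0 ∧ x ∉ Ia)
  let d : ℕ → ℕ := fun g => (D g).card
  have hbL : b ∈ L0 := by obtain ⟨L', h⟩ := S0.hd; rw [h]; simp
  have haL : a ∈ La := by obtain ⟨L', h⟩ := Sa.hd; rw [h]; simp
  have htne : ¬ (t ∈ π) ∧ ¬ (t' ∈ π) ∧ t ≠ t' ∧ π.Nodup := by
    rw [List.nodup_cons, List.mem_append, List.nodup_append] at hnd
    refine ⟨fun h => hnd.1 (Or.inl h), fun h => hnd.2.2.2 _ h t' (by simp) rfl,
      fun h => hnd.1 (Or.inr (by simp [h])), hnd.2.1⟩
  obtain ⟨htπ, ht'π, htt', hπnd⟩ := htne
  have hXgrp : ∀ g, ∀ x ∈ X g, G.grp x = g := fun g x hx => (Finset.mem_filter.mp hx).2.1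
  -- partition identity
  have hpart : ∀ g, (X g).card + d g + (L0.toFinset.filter (fun x => G.grp x = g)).card +
      (I0.filter (fun x => G.grp x = g)).card + (La.toFinset.filter (fun x => G.grp x = g)).card +
      (Ia.filter (fun x => G.grp x = g)).card =
      (Finset.univ.filter (fun x : Fin n => G.grp x = g)).card := by
    intro g
    have e0 : (L0.toFinset.filter (fun x => G.grp x = g)).card =
        ((Finset.univ : Finset (Fin n)).filter (fun x => G.grp x = g ∧ x ∈ L0)).card := by
      congr 1; ext x; simp only [Finset.mem_filter, List.mem_toFinset, Finset.mem_univ, true_and]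
      tauto
    have e1 : (La.toFinset.filter (fun x => G.grp x = g)).card =
        ((Finset.univ : Finset (Fin n)).filter (fun x => G.grp x = g ∧ x ∈ La)).card := by
      congr 1; ext x; simp only [Finset.mem_filter, List.mem_toFinset, Finset.mem_univ, true_and]
      tauto
    have e2 : (I0.filter (fun x => G.grp x = g)).card =
        ((Finset.univ : Finset (Fin n)).filter (fun x => G.grp x = g ∧ x ∈ I0)).card := by
      congr 1; ext x; simp only [Finset.mem_filter, Finset.mem_univ, true_and]
      tauto
    have e3 : (Ia.filter (fun x => G.grp x = g)).card =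
        ((Finset.univ : Finset (Fin n)).filter (fun x => G.grp x = g ∧ x ∈ Ia)).card := by
      congr 1; ext x; simp only [Finset.mem_filter, Finset.mem_univ, true_and]
      tauto
    rw [e0, e1, e2, e3]
    simp only [d, D, X, Finset.card_filter]
    simp only [← Finset.sum_add_distrib]
    refine Finset.sum_congr rfl ?_
    intro x _
    by_cases hg : G.grp x = g
    · simp only [hg, true_and, if_true]
      by_cases hx0 : x ∈ L0
      · have h1 := hdisj x (Or.inl hx0)
        have h2 : x ∉ La := fun h => h1 (Or.inl h)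
        have h3 : x ∉ Ia := fun h => h1 (Or.inr h)
        by_cases hxe : x ∈ e
        · have h4 := (S0.e_iff x hx0).mp hxe
          have h5 : x ∉ I0 := by rw [h4]; exact S0.bI
          simp only [h4, S0.bI, hab.symm]
          rw [← h4]
          simp [hx0, h2, h3]
        · have h5 : x ∉ I0 := fun h => hxe (S0.Ie h)
          simp [hx0, h2, h3, hxe, h5]
      · by_cases hxa : x ∈ La
        · have h3 : x ∉ I0 := fun h => hdisj x (Or.inr h) (Or.inl hxa)
          by_cases hxe : x ∈ e
          · have h4 := (Sa.e_iff x hxa).mp hxe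
            have h5 : x ∉ Ia := by rw [h4]; exact Sa.bI
            simp [hx0, hxa, h3, hxe, h5, h4]
            rw [← h4]
            simp [hx0, hxa, h3, h5]
          · have h5 : x ∉ Ia := fun h => hxe (Sa.Ie h)
            simp [hx0, hxa, h3, hxe, h5]
        · by_cases hxe : x ∈ e
          · have hxb : x ≠ b := fun h => hx0 (h ▸ hbL)
            have hxa2 : x ≠ a := fun h => hxa (h ▸ haL)
            by_cases hI : x ∈ I0
            · have h3 : x ∉ Ia := fun h => hdisj x (Or.inr hI) (Or.inr h)
              simp [hx0, hxa, hxe, hxb, hxa2, hI, h3]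
            · by_cases hI' : x ∈ Ia
              · simp [hx0, hxa, hxe, hxb, hxa2, hI, hI']
              · simp [hx0, hxa, hxe, hxb, hxa2, hI, hI']
          · have h3 : x ∉ I0 := fun h => hxe (S0.Ie h)
            have h4 : x ∉ Ia := fun h => hxe (Sa.Ie h)
            simp [hx0, hxa, hxe, h3, h4]
    · simp [hg]
  have hX0 : ∀ g, (g = t ∨ g = t') → (X g).card = 0 ∧ d g = 0 := by
    intro g hg
    constructor
    · rw [Finset.card_eq_zero, Finset.filter_eq_empty_iff]
      rintro x _ ⟨h1, h2, h3, h4⟩
      rcases hg with hg | hg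
      · exact h3 (S0.cover x (h1.trans hg) h2)
      · exact h4 (Sa.cover x (h1.trans hg) h2)
    · simp only [d, D]
      rw [Finset.card_eq_zero, Finset.filter_eq_empty_iff]
      rintro x _ ⟨h1, h2, h3, h4, h5, h6⟩
      rcases hg with hg | hg
      · rcases S0.coverI x h2 (h1.trans hg) with h | h
        · exact h4 h
        · exact h5 h
      · rcases Sa.coverI x h2 (h1.trans hg) with h | h
        · exact h3 h
        · exact h6 h
  have hXd : ∀ g, s ∣ (X g).card + d g := by
    intro g
    by_cases hg : g = t ∨ g = t'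
    · obtain ⟨h1, h2⟩ := hX0 g hg
      rw [h1, h2]
      exact dvd_zero _
    · push Not at hg
      have h1 := S0.dvd g hg.1
      have h2 := Sa.dvd g hg.2
      have h3 := hW g
      rw [← hpart g] at h3
      have h4 : (X g).card + d g + (L0.toFinset.filter (fun x => G.grp x = g)).card +
        (I0.filter (fun x => G.grp x = g)).card + (La.toFinset.filter (fun x => G.grp x = g)).card +
        (Ia.filter (fun x => G.grp x = g)).card = ((X g).card + d g) +
        (((L0.toFinset.filter (fun x => G.grp x = g)).card +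
        (I0.filter (fun x => G.grp x = g)).card) +
        ((La.toFinset.filter (fun x => G.grp x = g)).card +
        (Ia.filter (fun x => G.grp x = g)).card)) := by ring
      rw [h4] at h3
      exact (Nat.dvd_add_left (Dvd.dvd.add h1 h2)).mp h3
  -- total number
  have hsum : I0.card + (π.map d).sum + Ia.card + 1 = s := by
    have h1 : (π.map d).sum = (e.filter (fun x => x ≠ a ∧ x ≠ b ∧ x ∉ I0 ∧ x ∉ Ia)).card := by
      rw [List.sum_toFinset d hπnd |>.symm]
      rw [Finset.card_eq_sum_card_fiberwise (f := G.grp) (t := π.toFinset)]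
      · refine Finset.sum_congr rfl ?_
        intro g _
        simp only [d, D]
        congr 1
        ext x
        simp only [Finset.mem_filter, Finset.mem_univ, true_and]
        tauto
      · intro x hx
        obtain ⟨hx1, hx2, hx3, hx4, hx5⟩ := Finset.mem_filter.mp (Finset.mem_coe.mp hx)
        rw [Finset.mem_coe, List.mem_toFinset]
        rcases hcov x with h | h | h
        · rcases S0.coverI x hx1 h with h | h
          · exact absurd h hx3
          · exact absurd h hx4
        · rcases Sa.coverI x hx1 h with h | h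
          · exact absurd h hx2
          · exact absurd h hx5
        · exact h
    have h2 : e = insert a (insert b (I0 ∪ (Ia ∪
        e.filter (fun x => x ≠ a ∧ x ≠ b ∧ x ∉ I0 ∧ x ∉ Ia)))) := by
      ext x
      simp only [Finset.mem_insert, Finset.mem_union, Finset.mem_filter]
      constructor
      · intro hx; tauto
      · rintro (rfl | rfl | h | h | h)
        · exact ha
        · exact hb
        · exact S0.Ie h
        · exact Sa.Ie h
        · exact h.1
    have h3 : e.card = 1 + (1 + (I0.card + (Ia.card +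
        (e.filter (fun x => x ≠ a ∧ x ≠ b ∧ x ∉ I0 ∧ x ∉ Ia)).card))) := by
      conv_lhs => rw [h2]
      rw [Finset.card_insert_of_notMem, Finset.card_insert_of_notMem,
        Finset.card_union_of_disjoint, Finset.card_union_of_disjoint]
      · ring
      · rw [Finset.disjoint_left]
        intro x hx hx'
        exact (Finset.mem_filter.mp hx').2.2.2.2 hx
      · rw [Finset.disjoint_left]
        intro x hx hx'
        rcases Finset.mem_union.mp hx' with h | h
        · exact hdisj x (Or.inr hx) (Or.inr h)
        · exact (Finset.mem_filter.mp h).2.2.2.1 hx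
      · simp only [Finset.mem_union, Finset.mem_filter, not_or]
        exact ⟨S0.bI, fun h => hdisj b (Or.inl hbL) (Or.inr h), fun h => h.2.2.1 rfl⟩
      · simp only [Finset.mem_insert, Finset.mem_union, Finset.mem_filter, not_or]
        exact ⟨hab, fun h => hdisj a (Or.inr h) (Or.inl haL), Sa.bI, fun h => h.2.1 rfl⟩
    omega
  -- run the route
  have hchain : ChainOK G X d t' t π := by
    refine chainOK_of (R := fun p q => G.adj p q ∧ ¬ (p = t ∧ q = f) ∧
      ¬ (p = f ∧ q = t) ∧ ¬ (p = t' ∧ q = f') ∧ ¬ (p = f' ∧ q = t')) ?_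
      (fun q => q ≠ t ∧ q ≠ t') ?_ π t (fun q hq => ⟨fun h => htπ (h ▸ hq), fun h => ht'π (h ▸ hq)⟩)
      hch hnd
    · rintro p q ⟨⟨h1, h1'⟩, h2, h3, h4, h5⟩
      exact ⟨⟨h1', h1⟩, fun h => h3 ⟨h.2, h.1⟩, fun h => h2 ⟨h.2, h.1⟩, fun h => h5 ⟨h.2, h.1⟩,
        fun h => h4 ⟨h.2, h.1⟩⟩
    · rintro q p ⟨hqt, hqt'⟩ ⟨⟨h1, _⟩, h2, h3, h4, h5⟩
      have hsub : Finset.univ.filter (fun x : Fin n => G.grp x = q ∧ G.port x = some p) ⊆
          ((X q).filter (fun x => G.port x = some p)) ∪ D q := by
        intro x hx
        obtain ⟨hx1, hx2⟩ := (Finset.mem_filter.mp hx).2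
        have hn0 : ¬ (x ∈ L0 ∨ x ∈ I0) := by
          intro h
          rcases S0.wh x h with h | ⟨h, h'⟩
          · exact hqt (hx1.symm.trans h)
          · rcases h' with h' | h'
            · rw [hx2] at h'; simp at h'
            · rw [hx2] at h'
              exact h3 ⟨hx1.symm.trans h, Option.some.inj h'⟩
        have hna : ¬ (x ∈ La ∨ x ∈ Ia) := by
          intro h
          rcases Sa.wh x h with h | ⟨h, h'⟩
          · exact hqt' (hx1.symm.trans h)
          · rcases h' with h' | h'
            · rw [hx2] at h'; simp at h'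
            · rw [hx2] at h'
              exact h5 ⟨hx1.symm.trans h, Option.some.inj h'⟩
        push Not at hn0 hna
        rw [Finset.mem_union, Finset.mem_filter, Finset.mem_filter, Finset.mem_filter]
        by_cases hxe : x ∈ e
        · right
          exact ⟨Finset.mem_univ _, hx1, hxe, fun h => hna.1 (h ▸ haL), fun h => hn0.1 (h ▸ hbL),
            hn0.2, hna.2⟩
        · left
          exact ⟨⟨Finset.mem_univ _, hx1, hxe, hn0.1, hna.1⟩, hx2⟩
      have h6 := Finset.card_le_card hsub
      have h7 := Finset.card_union_le ((X q).filter (fun x => G.port x = some p)) (D q)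
      rw [h1] at h6
      simp only [d]
      omega
  obtain ⟨M, hM, hMr⟩ := route X d t' hXgrp hXd π t I0.card L0 (by rw [hπ]; exact S0.ready)
    (fun g' _ x hx => (Finset.mem_filter.mp hx).2.2.2.1) hπnd hchain (by omega)
  rw [hπl] at hMr
  -- final gluing
  have hMdisj : ∀ x ∈ M, x ∉ e ∧ x ∉ L0 ∧ x ∉ La := by
    intro x hx
    obtain ⟨g', _, hx'⟩ := (hM x).mp hx
    exact (Finset.mem_filter.mp hx').2.2
  have hPnd : ((L0 ++ M) ++ La.reverse).Nodup := by
    rw [List.nodup_append]
    refine ⟨hMr.nd, List.nodup_reverse.mpr Sa.ready.nd, ?_⟩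
    intro x hx y hy hxy
    subst hxy
    rw [List.mem_reverse] at hy
    rcases List.mem_append.mp hx with h | h
    · exact hdisj x (Or.inl h) (Or.inl hy)
    · exact (hMdisj x h).2.2 hy
  have hPaw : AW (s + 1) s 0 (· ∈ G.H1) ((L0 ++ M) ++ La.reverse) := by
    refine hMr.cross hPnd ?_ ?_
    · intro r hr
      have h1 : AW (s + 1) s (L0 ++ M).length (· ∈ G.H1) La.reverse := by
        refine AW.reverse Sa.ready.aw Sa.big ?_
        have h2 := Dvd.dvd.add hMr.dvd Sa.ready.dvd
        have h3 := Sa.big
        have h4 : (L0 ++ M).length + (I0.card + (π.map d).sum) + (La.length + Ia.card) =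
          La.length - (s + 1) + (L0 ++ M).length + 2 * s := by omega
        rw [h4] at h2
        exact (Nat.dvd_add_left (Dvd.intro_left 2 rfl)).mp h2
      exact h1.congr_mod hr.symm
    · intro x hx
      have h1 : I0.card + (π.map d).sum + 1 = s - Ia.card := by omega
      rw [h1, List.take_reverse, List.mem_reverse] at hx
      exact Sa.ready.tail x hx
  -- the cyclic list
  obtain ⟨L0', hL0'⟩ := S0.hd
  obtain ⟨La', hLa'⟩ := Sa.hd
  set M' := L0' ++ M ++ La'.reverse with hM'
  have hP : (L0 ++ M) ++ La.reverse = b :: (M' ++ [a]) := by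
    rw [hL0', hLa', hM']; simp
  rw [hP] at hPnd hPaw
  let Il := ((e.erase a).erase b).toList
  have hIlmem : ∀ x, x ∈ Il ↔ x ≠ b ∧ x ≠ a ∧ x ∈ e := by
    intro x
    simp only [Il, Finset.mem_toList, Finset.mem_erase]
  have hIllen : Il.length + 1 = s := by
    simp only [Il, Finset.length_toList]
    rw [Finset.card_erase_of_mem (Finset.mem_erase.mpr ⟨hab.symm, hb⟩),
      Finset.card_erase_of_mem ha, hek]
    omega
  have hPmem : ∀ x, x ∈ b :: (M' ++ [a]) → (x ∈ e ↔ x = a ∨ x = b) := by
    intro x hx
    rw [← hP] at hx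
    rcases List.mem_append.mp hx with h | h
    · rcases List.mem_append.mp h with h | h
      · rw [S0.e_iff x h]
        constructor
        · exact Or.inr
        · rintro (h' | h')
          · exact absurd (h' ▸ Or.inl haL) (hdisj x (Or.inl h))
          · exact h'
      · constructor
        · intro h'; exact absurd h' (hMdisj x h).1
        · rintro (h' | h')
          · exact absurd ha (h' ▸ (hMdisj x h).1)
          · exact absurd hb (h' ▸ (hMdisj x h).1)
    · rw [List.mem_reverse] at h
      rw [Sa.e_iff x h]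
      constructor
      · exact Or.inl
      · rintro (h' | h')
        · exact h'
        · exact absurd (Or.inl h) (hdisj x (h' ▸ Or.inl hbL))
  have hPall : ∀ x, x ∉ e → x ∈ b :: (M' ++ [a]) := by
    intro x hx
    rw [← hP]
    by_cases h0 : x ∈ L0
    · exact List.mem_append_left _ (List.mem_append_left _ h0)
    by_cases h1 : x ∈ La
    · exact List.mem_append_right _ (List.mem_reverse.mpr h1)
    · refine List.mem_append_left _ (List.mem_append_right _ ?_)
      rw [hM]
      rcases hcov x with h | h | h
      · exact absurd (S0.cover x h hx) h0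
      · exact absurd (Sa.cover x h hx) h1
      · exact ⟨_, h, Finset.mem_filter.mpr ⟨Finset.mem_univ _, rfl, hx, h0, h1⟩⟩
  have hM'mem : ∀ x, x ∈ M' → x ∉ e ∧ x ≠ a ∧ x ≠ b := by
    intro x hx
    have h1 := hPmem x (by simp [hx])
    rw [List.nodup_cons, List.nodup_append] at hPnd
    have h2 : x ≠ a := fun h => hPnd.2.2.2 x hx a (by simp) h
    have h3 : x ≠ b := fun h => hPnd.1 (by rw [← h]; simp [hx])
    refine ⟨fun h => ?_, h2, h3⟩
    rcases h1.mp h with h | h
    · exact h2 h
    · exact h3 h
  have hLnd : (a :: (Il ++ (b :: M'))).Nodup := by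
    rw [List.nodup_cons, List.nodup_append, List.nodup_cons]
    rw [List.nodup_cons, List.nodup_append] at hPnd
    refine ⟨?_, Finset.nodup_toList _, ⟨fun h => (hM'mem b h).2.2 rfl, hPnd.2.1⟩, ?_⟩
    · rw [List.mem_append, List.mem_cons, hIlmem]
      rintro (h | h | h)
      · exact h.2.1 rfl
      · exact hab h
      · exact (hM'mem a h).2.1 rfl
    · intro x hx y hy hxy
      subst hxy
      rw [hIlmem] at hx
      rcases List.mem_cons.mp hy with h | h
      · exact hx.1 h
      · exact (hM'mem x h).1 hx.2.2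
  have hLlen : (a :: (Il ++ (b :: M'))).length = n := by
    rw [← List.toFinset_card_of_nodup hLnd]
    have : (a :: (Il ++ (b :: M'))).toFinset = Finset.univ := by
      ext x
      simp only [List.mem_toFinset, Finset.mem_univ, iff_true, List.mem_cons, List.mem_append,
        hIlmem]
      by_cases hxa : x = a
      · exact Or.inl hxa
      by_cases hxb : x = b
      · exact Or.inr (Or.inr (Or.inl hxb))
      by_cases hxe : x ∈ e
      · exact Or.inr (Or.inl ⟨hxb, hxa, hxe⟩)
      · have := hPall x hxe
        simp only [List.mem_cons, List.mem_append, List.not_mem_nil, or_false] at this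
        rcases this with h | h | h
        · exact absurd h hxb
        · exact Or.inr (Or.inr (Or.inr h))
        · exact absurd h hxa
    rw [this, Finset.card_univ, Fintype.card_fin]
  refine ham_one hs hd hn (Finset.mem_insert_self e _) a b Il M' hLnd hLlen hIllen ?_
    (hPaw.imp (fun f hf => Finset.mem_insert_of_mem hf))
  ext x
  simp only [List.mem_toFinset, List.mem_cons, List.mem_append, hIlmem, List.not_mem_nil, or_false]
  constructor
  · rintro (h | h | h)
    · rw [h]; exact ha
    · exact h.2.2
    · rw [h]; exact hb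
  · intro h
    by_cases hxa : x = a
    · exact Or.inl hxa
    by_cases hxb : x = b
    · exact Or.inr (Or.inr hxb)
    · exact Or.inr (Or.inl ⟨hxb, hxa, h⟩)

end Blow

end Pool.Agent.Helper74.HamOne
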