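import Pool.Agent.Helper74.HamOne.Close

set_option autoImplicit false
open Classical

namespace Pool.Agent.Helper74.HamOne

open Pool.Agent.Helper74.HamSat

namespace Blow

variable {n s : ℕ} {G : Blow n s}

theorem start_T {e : Finset (Fin n)} (hek : e.card = s + 1) {a b : Fin n}
    (ha : a ∈ e) (hb : b ∈ e) (hab : a ≠ b) {t h : ℕ} (f : ℕ) (hbt : G.grp b = t) (hat : G.grp a ≠ t)
    (hW : s ∣ (Finset.univ.filter (fun x : Fin n => G.grp x = t)).card)
    (hbig : 2 * s + 2 ≤ (Finset.univ.filter (fun x : Fin n => G.grp x = t)).card)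
    (hadj : G.adj t h) (hne : ¬ ∀ x ∈ e, G.grp x = t → G.port x = some h) :
    ∃ L I, Start G e b t f h L I := by
  set Wt := Finset.univ.filter (fun x : Fin n => G.grp x = t) with hWt
  set R := Finset.univ.filter (fun x : Fin n => G.grp x = t ∧ G.port x = some h) with hR
  have hRc : R.card = s := hadj.1
  let I := (e.erase b).filter (fun x => G.grp x = t)
  have hIe : I ⊆ e := (Finset.filter_subset _ _).trans (Finset.erase_subset _ _)
  have hbI : b ∉ I := fun h => (Finset.mem_erase.mp (Finset.mem_filter.mp h).1).1 rfl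
  have haI : a ∉ I := fun h => hat (Finset.mem_filter.mp h).2
  have hIc : I.card + 1 ≤ s := by
    have h1 : I ⊆ (e.erase b).erase a := by
      intro x hx
      refine Finset.mem_erase.mpr ⟨fun h => haI (h ▸ hx), (Finset.mem_filter.mp hx).1⟩
    have h2 := Finset.card_le_card h1
    rw [Finset.card_erase_of_mem (Finset.mem_erase.mpr ⟨hab, ha⟩), Finset.card_erase_of_mem hb,
      hek] at h2
    have h3 : 0 < s := by
      rcases Nat.eq_zero_or_pos s with h | h
      · rw [h, Nat.zero_add, Finset.card_eq_one] at hek
        obtain ⟨y, hy⟩ := hek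
        rw [hy, Finset.mem_singleton] at ha hb
        exact absurd (ha.trans hb.symm) hab
      · exact h
    omega
  -- elements of `e` in group `t`
  have heW : (e ∩ Wt).card = I.card + 1 := by
    have : e ∩ Wt = insert b I := by
      ext x
      simp only [I, hWt, Finset.mem_inter, Finset.mem_filter, Finset.mem_univ, true_and,
        Finset.mem_insert, Finset.mem_erase]
      constructor
      · rintro ⟨h1, h2⟩
        by_cases hx : x = b
        · exact Or.inl hx
        · exact Or.inr ⟨⟨hx, h1⟩, h2⟩
      · rintro (h | h)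
        · rw [h]; exact ⟨hb, hbt⟩
        · exact ⟨h.1.2, h.2⟩
    rw [this, Finset.card_insert_of_notMem hbI]
  have hRe : (e ∩ R).card ≤ I.card := by
    push Not at hne
    obtain ⟨x, hxe, hxt, hxp⟩ := hne
    have h1 : e ∩ R ⊆ (e ∩ Wt).erase x := by
      intro y hy
      rw [Finset.mem_inter, hR, Finset.mem_filter] at hy
      refine Finset.mem_erase.mpr ⟨?_, Finset.mem_inter.mpr ⟨hy.1, Finset.mem_filter.mpr
        ⟨Finset.mem_univ _, hy.2.2.1⟩⟩⟩
      rintro rfl
      exact hxp hy.2.2.2
    have h2 := Finset.card_le_card h1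
    rw [Finset.card_erase_of_mem (Finset.mem_inter.mpr ⟨hxe, Finset.mem_filter.mpr
      ⟨Finset.mem_univ _, hxt⟩⟩), heW] at h2
    omega
  have hRe2 : s - I.card ≤ (R \ e).card := by
    have h1 := Finset.card_sdiff_add_card_inter R e
    rw [Finset.inter_comm] at h1
    omega
  obtain ⟨tl, htl, htlc⟩ := Finset.exists_subset_card_eq hRe2
  have htlW : tl ⊆ Wt \ e := by
    intro x hx
    have h1 := Finset.mem_sdiff.mp (htl hx)
    exact Finset.mem_sdiff.mpr ⟨Finset.mem_filter.mpr ⟨Finset.mem_univ _,
      (Finset.mem_filter.mp h1.1).2.1⟩, h1.2⟩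
  have hWe : (Wt \ e).card + (I.card + 1) = Wt.card := by
    have h1 := Finset.card_sdiff_add_card_inter Wt e
    rw [Finset.inter_comm, heW] at h1
    exact h1
  let L := b :: (((Wt \ e) \ tl).toList ++ tl.toList)
  have hLmem : ∀ x, x ∈ L ↔ x = b ∨ (G.grp x = t ∧ x ∉ e) := by
    intro x
    simp only [L, List.mem_cons, List.mem_append, Finset.mem_toList, Finset.mem_sdiff, hWt,
      Finset.mem_filter, Finset.mem_univ, true_and]
    constructor
    · rintro (h | h | h)
      · exact Or.inl h
      · exact Or.inr h.1
      · have := htlW h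
        rw [Finset.mem_sdiff, hWt, Finset.mem_filter] at this
        exact Or.inr ⟨this.1.2, this.2⟩
    · rintro (h | h)
      · exact Or.inl h
      · by_cases hx : x ∈ tl
        · exact Or.inr (Or.inr hx)
        · exact Or.inr (Or.inl ⟨h, hx⟩)
  have hLnd : L.Nodup := by
    simp only [L]
    rw [List.nodup_cons, List.nodup_append]
    refine ⟨?_, Finset.nodup_toList _, Finset.nodup_toList _, ?_⟩
    · rw [List.mem_append, Finset.mem_toList, Finset.mem_toList]
      rintro (h | h)
      · exact (Finset.mem_sdiff.mp (Finset.mem_sdiff.mp h).1).2 hb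
      · exact (Finset.mem_sdiff.mp (htlW h)).2 hb
    · intro x hx y hy hxy
      subst hxy
      rw [Finset.mem_toList] at hx hy
      exact (Finset.mem_sdiff.mp hx).2 hy
  have hLlen : L.length + I.card = Wt.card := by
    simp only [L, List.length_cons, List.length_append, Finset.length_toList]
    rw [Finset.card_sdiff_add_card_eq_card htlW]
    omega
  have htlen : tl.toList.length = s - I.card := by rw [Finset.length_toList, htlc]
  refine ⟨L, I, ⟨hLnd, ?_, hIc, ?_, ?_, ?_⟩, ⟨_, rfl⟩, ?_, hIe, hbI, ?_, ?_, ?_, ?_, ?_, ?_⟩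
  · refine aw_grp hLnd t ?_
    intro x hx
    rcases (hLmem x).mp hx with h | h
    · rw [h]; exact hbt
    · exact h.1
  · rw [hLlen]; exact hW
  · omega
  · intro x hx
    have e1 : L = (b :: ((Wt \ e) \ tl).toList) ++ tl.toList := by simp [L]
    have e2 : L.length - (s - I.card) = (b :: ((Wt \ e) \ tl).toList).length := by
      rw [e1, List.length_append, htlen]
      omega
    rw [e2, e1, List.drop_left, Finset.mem_toList] at hx
    exact (Finset.mem_filter.mp (Finset.mem_sdiff.mp (htl hx)).1).2
  · intro x hx
    rcases (hLmem x).mp hx with h | h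
    · rw [h]; exact ⟨fun _ => rfl, fun _ => hb⟩
    · exact ⟨fun h' => absurd h' h.2, fun h' => absurd (h' ▸ hb) h.2⟩
  · intro x hx hxe
    exact (hLmem x).mpr (Or.inr ⟨hx, hxe⟩)
  · intro x hx hxt
    by_cases hxb : x = b
    · exact Or.inl hxb
    · exact Or.inr (Finset.mem_filter.mpr ⟨Finset.mem_erase.mpr ⟨hxb, hx⟩, hxt⟩)
  · rintro x (hx | hx)
    · rcases (hLmem x).mp hx with h | h
      · left; rw [h]; exact hbt
      · exact Or.inl h.1
    · exact Or.inl (Finset.mem_filter.mp hx).2
  · rintro x (hx | hx)
    · rcases (hLmem x).mp hx with h | h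
      · left; rw [h]; exact hbt
      · exact Or.inl h.1
    · exact Or.inl (Finset.mem_filter.mp hx).2
  · intro g hg
    have h1 : L.toFinset.filter (fun x => G.grp x = g) = ∅ := by
      rw [Finset.filter_eq_empty_iff]
      intro x hx hxg
      rcases (hLmem x).mp (List.mem_toFinset.mp hx) with h | h
      · rw [h, hbt] at hxg; exact hg hxg.symm
      · exact hg (hxg.symm.trans h.1)
    have h2 : I.filter (fun x => G.grp x = g) = ∅ := by
      rw [Finset.filter_eq_empty_iff]
      intro x hx hxg
      exact hg (hxg.symm.trans (Finset.mem_filter.mp hx).2)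
    rw [h1, h2]
    simp
  · omega

theorem start_Q {e : Finset (Fin n)} (hek : e.card = s + 1) {a b : Fin n}
    (ha : a ∈ e) (hb : b ∈ e) (hab : a ≠ b) {v t h : ℕ} (hbv : G.grp b = v)
    (hav : G.grp a ≠ v) (hat : G.grp a ≠ t) (hvt : v ≠ t) (hvh : v ≠ h)
    (hW : s ∣ (Finset.univ.filter (fun x : Fin n => G.grp x = t)).card)
    (hbig : 2 * s + 2 ≤ (Finset.univ.filter (fun x : Fin n => G.grp x = t)).card)
    (hadjv : G.adj v t) (hadj : G.adj t h) (hpb : G.port b = none ∨ G.port b = some t)
    (hcore : 2 * s ≤ (Finset.univ.filter (fun x : Fin n => G.grp x = v ∧ G.port x = none)).card) :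
    ∃ L I, Start G e b t v h L I := by
  set Wt := Finset.univ.filter (fun x : Fin n => G.grp x = t) with hWt
  set R := Finset.univ.filter (fun x : Fin n => G.grp x = v ∧ G.port x = some t) with hR
  have hRc : R.card = s := hadjv.1
  let I1 := (e.erase b).filter (fun x => G.grp x = v ∧ G.port x = some t)
  let I2 := e.filter (fun x => G.grp x = t)
  have hI1e : I1 ⊆ e := (Finset.filter_subset _ _).trans (Finset.erase_subset _ _)
  have hI2e : I2 ⊆ e := Finset.filter_subset _ _
  have hbI1 : b ∉ I1 := fun h => (Finset.mem_erase.mp (Finset.mem_filter.mp h).1).1 rfl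
  have hbI2 : b ∉ I2 := fun h => hvt (hbv.symm.trans (Finset.mem_filter.mp h).2)
  have hdisj : Disjoint I1 I2 := by
    rw [Finset.disjoint_left]
    intro x hx hx'
    exact hvt ((Finset.mem_filter.mp hx).2.1.symm.trans (Finset.mem_filter.mp hx').2)
  have hs : 0 < s := by
    rcases Nat.eq_zero_or_pos s with h | h
    · rw [h, Nat.zero_add, Finset.card_eq_one] at hek
      obtain ⟨y, hy⟩ := hek
      rw [hy, Finset.mem_singleton] at ha hb
      exact absurd (ha.trans hb.symm) hab
    · exact h
  have hIc : I1.card + I2.card + 1 ≤ s := by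
    rw [← Finset.card_union_of_disjoint hdisj]
    have h1 : I1 ∪ I2 ⊆ (e.erase b).erase a := by
      intro x hx
      rcases Finset.mem_union.mp hx with h | h
      · refine Finset.mem_erase.mpr ⟨?_, (Finset.mem_filter.mp h).1⟩
        rintro rfl
        exact hav (Finset.mem_filter.mp h).2.1
      · refine Finset.mem_erase.mpr ⟨?_, Finset.mem_erase.mpr ⟨fun h' => hbI2 (h' ▸ h), hI2e h⟩⟩
        rintro rfl
        exact hat (Finset.mem_filter.mp h).2
    have h2 := Finset.card_le_card h1
    rw [Finset.card_erase_of_mem (Finset.mem_erase.mpr ⟨hab, ha⟩), Finset.card_erase_of_mem hb,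
      hek] at h2
    omega
  -- the first short piece
  obtain ⟨L1, hL1nd, hL1hd, hL1v, hL1e, hL1p, hL1r⟩ : ∃ L1 : List (Fin n), L1.Nodup ∧
      (∃ L', L1 = b :: L') ∧ (∀ x ∈ L1, G.grp x = v) ∧ (∀ x ∈ L1, x ∈ e ↔ x = b) ∧
      (∀ x ∈ L1, G.port x = none ∨ G.port x = some t) ∧ Ready G v t I1.card L1 := by
    rcases hpb with hpb | hpb
    · -- b is not a port vertex
      have hRe : s - I1.card ≤ (R \ e).card := by
        have h1 := Finset.card_sdiff_add_card_inter R e
        have h2 : R ∩ e ⊆ I1 := by
          intro x hx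
          rw [Finset.mem_inter, hR, Finset.mem_filter] at hx
          refine Finset.mem_filter.mpr ⟨Finset.mem_erase.mpr ⟨?_, hx.2⟩, hx.1.2⟩
          rintro rfl
          rw [hpb] at hx
          simp at hx
        have h3 := Finset.card_le_card h2
        omega
      obtain ⟨tl, htl, htlc⟩ := Finset.exists_subset_card_eq hRe
      set K := Finset.univ.filter (fun x : Fin n => G.grp x = v ∧ G.port x = none) with hK
      have hKe : s - 1 ≤ (K \ e).card := by
        have h1 := Finset.card_sdiff_add_card_inter K e
        have h2 := Finset.card_le_card (Finset.inter_subset_right (s₁ := K) (s₂ := e))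
        omega
      obtain ⟨K', hK', hK'c⟩ := Finset.exists_subset_card_eq hKe
      have htlen : tl.toList.length = s - I1.card := by rw [Finset.length_toList, htlc]
      have hKlen : K'.toList.length = s - 1 := by rw [Finset.length_toList, hK'c]
      have hK'm : ∀ x ∈ K', G.grp x = v ∧ G.port x = none ∧ x ∉ e := by
        intro x hx
        have h1 := Finset.mem_sdiff.mp (hK' hx)
        have h2 := (Finset.mem_filter.mp h1.1).2
        exact ⟨h2.1, h2.2, h1.2⟩
      have htlm : ∀ x ∈ tl, G.grp x = v ∧ G.port x = some t ∧ x ∉ e := by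
        intro x hx
        have h1 := Finset.mem_sdiff.mp (htl hx)
        have h2 := (Finset.mem_filter.mp h1.1).2
        exact ⟨h2.1, h2.2, h1.2⟩
      set L1 := b :: (K'.toList ++ tl.toList) with hL1
      have hmem : ∀ x, x ∈ L1 ↔ x = b ∨ x ∈ K' ∨ x ∈ tl := by
        intro x
        simp only [hL1, List.mem_cons, List.mem_append, Finset.mem_toList]
      have hnd : L1.Nodup := by
        rw [hL1, List.nodup_cons, List.nodup_append]
        refine ⟨?_, Finset.nodup_toList _, Finset.nodup_toList _, ?_⟩
        · rw [List.mem_append, Finset.mem_toList, Finset.mem_toList]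
          rintro (h | h)
          · exact (hK'm b h).2.2 hb
          · exact (htlm b h).2.2 hb
        · intro x hx y hy hxy
          subst hxy
          rw [Finset.mem_toList] at hx hy
          have h1 := (hK'm x hx).2.1
          rw [(htlm x hy).2.1] at h1
          simp at h1
      have hlen : L1.length + I1.card = 2 * s := by
        rw [hL1, List.length_cons, List.length_append, htlen, hKlen]
        omega
      have hv : ∀ x ∈ L1, G.grp x = v := by
        intro x hx
        rcases (hmem x).mp hx with h | h | h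
        · rw [h]; exact hbv
        · exact (hK'm x h).1
        · exact (htlm x h).1
      refine ⟨L1, hnd, ⟨_, rfl⟩, hv, ?_, ?_, hnd, aw_grp hnd v hv, by omega, ?_, by omega, ?_⟩
      · intro x hx
        rcases (hmem x).mp hx with h | h | h
        · rw [h]; exact ⟨fun _ => rfl, fun _ => hb⟩
        · exact ⟨fun h' => absurd h' (hK'm x h).2.2, fun h' => absurd (h' ▸ hb) (hK'm x h).2.2⟩
        · exact ⟨fun h' => absurd h' (htlm x h).2.2, fun h' => absurd (h' ▸ hb) (htlm x h).2.2⟩
      · intro x hx
        rcases (hmem x).mp hx with h | h | h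
        · rw [h]; exact Or.inl hpb
        · exact Or.inl (hK'm x h).2.1
        · exact Or.inr (htlm x h).2.1
      · rw [hlen]; exact Dvd.intro_left 2 rfl
      · intro x hx
        have e1 : L1 = (b :: K'.toList) ++ tl.toList := by simp [hL1]
        have e2 : L1.length - (s - I1.card) = (b :: K'.toList).length := by
          rw [e1, List.length_append, htlen]
          omega
        rw [e2, e1, List.drop_left, Finset.mem_toList] at hx
        exact ⟨(htlm x hx).1, (htlm x hx).2.1⟩
    · -- b is a port vertex
      have hRe : s - I1.card - 1 ≤ (R \ e).card := by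
        have h1 := Finset.card_sdiff_add_card_inter R e
        have h2 : R ∩ e ⊆ insert b I1 := by
          intro x hx
          rw [Finset.mem_inter, hR, Finset.mem_filter] at hx
          by_cases hxb : x = b
          · rw [hxb]; exact Finset.mem_insert_self _ _
          · exact Finset.mem_insert_of_mem
              (Finset.mem_filter.mpr ⟨Finset.mem_erase.mpr ⟨hxb, hx.2⟩, hx.1.2⟩)
        have h3 := Finset.card_le_card h2
        rw [Finset.card_insert_of_notMem hbI1] at h3
        omega
      obtain ⟨tl, htl, htlc⟩ := Finset.exists_subset_card_eq hRe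
      have htlen : tl.toList.length = s - I1.card - 1 := by rw [Finset.length_toList, htlc]
      have htlm : ∀ x ∈ tl, G.grp x = v ∧ G.port x = some t ∧ x ∉ e := by
        intro x hx
        have h1 := Finset.mem_sdiff.mp (htl hx)
        have h2 := (Finset.mem_filter.mp h1.1).2
        exact ⟨h2.1, h2.2, h1.2⟩
      set L1 := b :: tl.toList with hL1
      have hmem : ∀ x, x ∈ L1 ↔ x = b ∨ x ∈ tl := by
        intro x
        simp only [hL1, List.mem_cons, Finset.mem_toList]
      have hnd : L1.Nodup := by
        rw [hL1, List.nodup_cons]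
        refine ⟨?_, Finset.nodup_toList _⟩
        rw [Finset.mem_toList]
        exact fun h => (htlm b h).2.2 hb
      have hlen : L1.length + I1.card = s := by
        rw [hL1, List.length_cons, htlen]
        omega
      have hv : ∀ x ∈ L1, G.grp x = v ∧ G.port x = some t := by
        intro x hx
        rcases (hmem x).mp hx with h | h
        · rw [h]; exact ⟨hbv, hpb⟩
        · exact ⟨(htlm x h).1, (htlm x h).2.1⟩
      refine ⟨L1, hnd, ⟨_, rfl⟩, fun x hx => (hv x hx).1, ?_, fun x hx => Or.inr (hv x hx).2,
        hnd, aw_grp hnd v (fun x hx => (hv x hx).1), by omega, ?_, by omega, ?_⟩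
      · intro x hx
        rcases (hmem x).mp hx with h | h
        · rw [h]; exact ⟨fun _ => rfl, fun _ => hb⟩
        · exact ⟨fun h' => absurd h' (htlm x h).2.2, fun h' => absurd (h' ▸ hb) (htlm x h).2.2⟩
      · rw [hlen]
      · intro x hx
        exact hv x (List.mem_of_mem_drop hx)
  -- one step through the group `t`
  have hav : ∀ p, G.adj t p → s ≤ ((Wt \ e).filter (fun x => G.port x = some p)).card + I2.card := by
    intro p hp
    have hsub : Finset.univ.filter (fun x : Fin n => G.grp x = t ∧ G.port x = some p) ⊆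
        ((Wt \ e).filter (fun x => G.port x = some p)) ∪ I2 := by
      intro x hx
      obtain ⟨h1, h2⟩ := (Finset.mem_filter.mp hx).2
      rw [Finset.mem_union, Finset.mem_filter, Finset.mem_filter, Finset.mem_sdiff, hWt,
        Finset.mem_filter]
      by_cases hxe : x ∈ e
      · exact Or.inr ⟨hxe, h1⟩
      · exact Or.inl ⟨⟨⟨Finset.mem_univ _, h1⟩, hxe⟩, h2⟩
    have h1 := Finset.card_le_card hsub
    have h2 := Finset.card_union_le ((Wt \ e).filter (fun x => G.port x = some p)) I2
    rw [hp.1] at h1
    omega
  have hWe : (Wt \ e).card + I2.card = Wt.card := by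
    have h1 := Finset.card_sdiff_add_card_inter Wt e
    have h2 : Wt ∩ e = I2 := by
      ext x
      simp only [I2, hWt, Finset.mem_inter, Finset.mem_filter, Finset.mem_univ, true_and]
      exact And.comm
    rw [h2] at h1
    exact h1
  obtain ⟨S, hSnd, hSmem, hSr⟩ := hL1r.step (g2 := h) (d := I2.card) (Wt \ e)
    (fun x hx => (Finset.mem_filter.mp (Finset.mem_sdiff.mp hx).1).2)
    (fun x hx hx' => hvt ((hL1v x hx').symm.trans
      (Finset.mem_filter.mp (Finset.mem_sdiff.mp hx).1).2))
    (by rw [hWe]; exact hW) (by omega) (hav v ⟨hadjv.2, hadjv.1⟩) (hav h hadj) hvh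
  have hSm : ∀ x ∈ S, G.grp x = t ∧ x ∉ e := by
    intro x hx
    have h1 := (hSmem x).mp hx
    rw [Finset.mem_sdiff, hWt, Finset.mem_filter] at h1
    exact ⟨h1.1.2, h1.2⟩
  have hIcard : (I1 ∪ I2).card = I1.card + I2.card := Finset.card_union_of_disjoint hdisj
  refine ⟨L1 ++ S, I1 ∪ I2, ?_, ?_, ?_, Finset.union_subset hI1e hI2e, ?_, ?_, ?_, ?_, ?_, ?_, ?_⟩
  · rw [hIcard]; exact hSr
  · obtain ⟨L', hL'⟩ := hL1hd
    exact ⟨L' ++ S, by rw [hL']; rfl⟩
  · intro x hx
    rcases List.mem_append.mp hx with h | h
    · exact hL1e x h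
    · refine ⟨fun h' => absurd h' (hSm x h).2, fun h' => absurd (h' ▸ hb) (hSm x h).2⟩
  · rw [Finset.mem_union]; exact fun h => h.elim hbI1 hbI2
  · intro x hx hxe
    exact List.mem_append_right _ ((hSmem x).mpr (Finset.mem_sdiff.mpr
      ⟨Finset.mem_filter.mpr ⟨Finset.mem_univ _, hx⟩, hxe⟩))
  · intro x hx hxt
    exact Or.inr (Finset.mem_union_right _ (Finset.mem_filter.mpr ⟨hx, hxt⟩))
  · rintro x (hx | hx)
    · rcases List.mem_append.mp hx with h | h
      · exact Or.inr ⟨hL1v x h, hL1p x h⟩
      · exact Or.inl (hSm x h).1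
    · rcases Finset.mem_union.mp hx with h | h
      · have := (Finset.mem_filter.mp h).2
        exact Or.inr ⟨this.1, Or.inr this.2⟩
      · exact Or.inl (Finset.mem_filter.mp h).2
  · rintro x (hx | hx)
    · rcases List.mem_append.mp hx with h | h
      · exact Or.inr ((hL1v x h).trans hbv.symm)
      · exact Or.inl (hSm x h).1
    · rcases Finset.mem_union.mp hx with h | h
      · exact Or.inr ((Finset.mem_filter.mp h).2.1.trans hbv.symm)
      · exact Or.inl (Finset.mem_filter.mp h).2
  · intro g hg
    have h2 : (L1 ++ S).toFinset.filter (fun x => G.grp x = g) =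
        L1.toFinset.filter (fun x => G.grp x = g) := by
      ext x
      simp only [Finset.mem_filter, List.mem_toFinset, List.mem_append]
      constructor
      · rintro ⟨h | h, h'⟩
        · exact ⟨h, h'⟩
        · exact absurd (h'.symm.trans (hSm x h).1) hg
      · rintro ⟨h, h'⟩
        exact ⟨Or.inl h, h'⟩
    have h3 : (I1 ∪ I2).filter (fun x => G.grp x = g) = I1.filter (fun x => G.grp x = g) := by
      ext x
      simp only [Finset.mem_filter, Finset.mem_union]
      constructor
      · rintro ⟨h | h, h'⟩
        · exact ⟨h, h'⟩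
        · exact absurd (h'.symm.trans (Finset.mem_filter.mp h).2) hg
      · rintro ⟨h, h'⟩
        exact ⟨Or.inl h, h'⟩
    rw [h2, h3]
    by_cases hgv : g = v
    · have h4 : L1.toFinset.filter (fun x => G.grp x = g) = L1.toFinset := by
        rw [Finset.filter_eq_self]
        intro x hx
        rw [hgv]; exact hL1v x (List.mem_toFinset.mp hx)
      have h5 : I1.filter (fun x => G.grp x = g) = I1 := by
        rw [Finset.filter_eq_self]
        intro x hx
        rw [hgv]; exact (Finset.mem_filter.mp hx).2.1
      rw [h4, h5, List.toFinset_card_of_nodup hL1nd]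
      exact hL1r.dvd
    · have h4 : L1.toFinset.filter (fun x => G.grp x = g) = ∅ := by
        rw [Finset.filter_eq_empty_iff]
        intro x hx hxg
        exact hgv (hxg.symm.trans (hL1v x (List.mem_toFinset.mp hx)))
      have h5 : I1.filter (fun x => G.grp x = g) = ∅ := by
        rw [Finset.filter_eq_empty_iff]
        intro x hx hxg
        exact hgv (hxg.symm.trans (Finset.mem_filter.mp hx).2.1)
      rw [h4, h5]
      simp
  · rw [List.length_append]
    have h1 : S.length = (Wt \ e).card := by
      rw [← List.toFinset_card_of_nodup hSnd]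
      congr 1
      ext x
      rw [List.mem_toFinset, hSmem]
    omega

end Blow

end Pool.Agent.Helper74.HamOne
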