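import Pool.Agent.Helper74.HamOne.Nbl
import Pool.Agent.Helper74.HamOne.StartL

set_option autoImplicit false
open Classical

namespace Pool.Agent.Helper74.HamOne

open Pool.Agent.Helper74.HamSat

theorem card_Ico_le {n A B : ℕ} {P : Fin n → Prop} [DecidablePred P]
    (h : ∀ v : Fin n, P v → A ≤ v.1 ∧ v.1 < B) :
    (Finset.univ.filter P).card ≤ B - A := by
  rw [← Nat.card_Ico, ← Finset.card_map Fin.valEmbedding]
  apply Finset.card_le_card
  intro x hx
  obtain ⟨v, hv, rfl⟩ := Finset.mem_map.mp hx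
  exact Finset.mem_Ico.mpr (h v (Finset.mem_filter.mp hv).2)

theorem card_Ico_ge {n A B : ℕ} {P : Fin n → Prop} [DecidablePred P] (hB : B ≤ n)
    (h : ∀ v : Fin n, A ≤ v.1 → v.1 < B → P v) :
    B - A ≤ (Finset.univ.filter P).card := by
  rw [← Nat.card_Ico, ← Finset.card_map Fin.valEmbedding]
  apply Finset.card_le_card
  intro x hx
  rw [Finset.mem_Ico] at hx
  refine Finset.mem_map.mpr ⟨⟨x, by omega⟩, Finset.mem_filter.mpr ⟨Finset.mem_univ _, ?_⟩, rfl⟩
  exact h _ hx.1 hx.2

/-- group of a vertex -/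
def cg (s m x : ℕ) : ℕ := min (x / (8 * s)) (10 * m)

/-- slot of a vertex in its group -/
def cs (s m x : ℕ) : ℕ := (x - cg s m x * (8 * s)) / s

/-- port of a vertex -/
def cp (s m x : ℕ) : Option ℕ := (nbl m (cg s m x))[cs s m x]?

theorem cg_le (s m x : ℕ) : cg s m x ≤ 10 * m := Nat.min_le_right _ _

theorem cg_mul_le {s m x : ℕ} : cg s m x * (8 * s) ≤ x := by
  have h1 : cg s m x ≤ x / (8 * s) := Nat.min_le_left _ _
  exact (Nat.mul_le_mul_right _ h1).trans (Nat.div_mul_le_self _ _)

theorem cg_eq {s m x g : ℕ} (hs : 1 ≤ s) (hg : g < 10 * m) :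
    cg s m x = g ↔ g * (8 * s) ≤ x ∧ x < g * (8 * s) + 8 * s := by
  have h1 : cg s m x = g ↔ x / (8 * s) = g := by
    unfold cg
    omega
  rw [h1]
  constructor
  · rintro rfl
    exact ⟨Nat.div_mul_le_self _ _, Nat.lt_div_mul_add (by omega)⟩
  · rintro ⟨h2, h3⟩
    apply Nat.div_eq_of_lt_le
    · exact h2
    · rw [Nat.add_mul, Nat.one_mul]; exact h3

theorem cg_eq_top {s m x : ℕ} (hs : 1 ≤ s) :
    cg s m x = 10 * m ↔ 10 * m * (8 * s) ≤ x := by
  have h1 : cg s m x = 10 * m ↔ 10 * m ≤ x / (8 * s) := by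
    unfold cg
    omega
  rw [h1, Nat.le_div_iff_mul_le (by omega)]

theorem slot_eq {s m x g j : ℕ} (hs : 1 ≤ s) (hg : g ≤ 10 * m) (hj : j < 8) :
    (cg s m x = g ∧ cs s m x = j) ↔
      g * (8 * s) + j * s ≤ x ∧ x < g * (8 * s) + j * s + s := by
  have hjs : j * s + s ≤ 8 * s := by
    have : (j + 1) * s ≤ 8 * s := Nat.mul_le_mul_right s hj
    rw [Nat.add_mul, Nat.one_mul] at this
    exact this
  have key : cg s m x = g → (cs s m x = j ↔
      g * (8 * s) + j * s ≤ x ∧ x < g * (8 * s) + j * s + s) := by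
    intro h
    have h0 : g * (8 * s) ≤ x := h ▸ cg_mul_le
    unfold cs
    rw [h]
    constructor
    · intro h1
      have h2 : j * s ≤ x - g * (8 * s) := by rw [← h1]; exact Nat.div_mul_le_self _ _
      have h3 : x - g * (8 * s) < j * s + s := by rw [← h1]; exact Nat.lt_div_mul_add (by omega)
      omega
    · intro h1
      apply Nat.div_eq_of_lt_le
      · omega
      · rw [Nat.add_mul, Nat.one_mul]; omega
  constructor
  · rintro ⟨h1, h2⟩
    exact (key h1).mp h2
  · intro h
    have hcg : cg s m x = g := by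
      rcases Nat.lt_or_ge g (10 * m) with h1 | h1
      · rw [cg_eq hs h1]; omega
      · have : g = 10 * m := by omega
        subst this
        rw [cg_eq_top hs]; omega
    exact ⟨hcg, (key hcg).mpr h⟩

theorem port_card {n s m g u : ℕ} (hs : 1 ≤ s) (hm : 1 ≤ m) (hn : 10 * m * (8 * s) + 8 * s ≤ n)
    (hg : g ≤ 10 * m) (hu : u ∈ nbl m g) :
    (Finset.univ.filter (fun v : Fin n => cg s m v.1 = g ∧ cp s m v.1 = some u)).card = s := by
  obtain ⟨j, hj, hju⟩ := List.mem_iff_getElem.mp hu
  have hnd := nbl_nodup hm hg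
  have hl := nbl_length m g
  have hiff : ∀ v : Fin n, (cg s m v.1 = g ∧ cp s m v.1 = some u) ↔
      g * (8 * s) + j * s ≤ v.1 ∧ v.1 < g * (8 * s) + j * s + s := by
    intro v
    rw [← slot_eq hs hg (show j < 8 by omega)]
    constructor
    · rintro ⟨h1, h2⟩
      refine ⟨h1, ?_⟩
      unfold cp at h2
      rw [h1, List.getElem?_eq_some_iff] at h2
      obtain ⟨h3, h4⟩ := h2
      exact (List.Nodup.getElem_inj_iff hnd).mp (h4.trans hju.symm)
    · rintro ⟨h1, h2⟩
      refine ⟨h1, ?_⟩
      unfold cp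
      rw [h1, h2, List.getElem?_eq_some_iff]
      exact ⟨hj, hju⟩
  have hgn : g * (8 * s) + j * s + s ≤ n := by
    have h1 : g * (8 * s) ≤ 10 * m * (8 * s) := Nat.mul_le_mul_right _ hg
    have h2 : (j + 1) * s ≤ 8 * s := Nat.mul_le_mul_right s (by omega)
    rw [Nat.add_mul, Nat.one_mul] at h2
    omega
  apply le_antisymm
  · have := card_Ico_le (n := n) (P := fun v : Fin n => cg s m v.1 = g ∧ cp s m v.1 = some u)
      (fun v hv => (hiff v).mp hv)
    omega
  · have := card_Ico_ge (n := n) (P := fun v : Fin n => cg s m v.1 = g ∧ cp s m v.1 = some u)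
      hgn (fun v h1 h2 => (hiff v).mpr ⟨h1, h2⟩)
    omega

theorem port_card_le {n s m g u : ℕ} (hs : 1 ≤ s) (hm : 1 ≤ m)
    (hn : 10 * m * (8 * s) + 8 * s ≤ n) :
    (Finset.univ.filter (fun v : Fin n => cg s m v.1 = g ∧ cp s m v.1 = some u)).card ≤ s := by
  by_cases hg : g ≤ 10 * m
  · by_cases hu : u ∈ nbl m g
    · exact (port_card hs hm hn hg hu).le
    · rw [Finset.card_eq_zero.mpr]
      · omega
      · rw [Finset.filter_eq_empty_iff]
        rintro v - ⟨h1, h2⟩
        unfold cp at h2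
        rw [h1] at h2
        exact hu (List.mem_of_getElem? h2)
  · rw [Finset.card_eq_zero.mpr]
    · omega
    · rw [Finset.filter_eq_empty_iff]
      rintro v - ⟨h1, h2⟩
      have := cg_le s m v.1
      omega

theorem core_card {n s m g : ℕ} (hs : 1 ≤ s) (hn : 10 * m * (8 * s) + 8 * s ≤ n)
    (hg : g ≤ 10 * m) :
    4 * s ≤ (Finset.univ.filter (fun v : Fin n => cg s m v.1 = g ∧ cp s m v.1 = none)).card := by
  have hl := nbl_length m g
  have hgn : g * (8 * s) + 8 * s ≤ n := by
    have h1 : g * (8 * s) ≤ 10 * m * (8 * s) := Nat.mul_le_mul_right _ hg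
    omega
  have := card_Ico_ge (n := n) (A := g * (8 * s) + 4 * s)
    (P := fun v : Fin n => cg s m v.1 = g ∧ cp s m v.1 = none)
    hgn (by
      intro v h1 h2
      have hcg : cg s m v.1 = g := by
        rcases Nat.lt_or_ge g (10 * m) with h3 | h3
        · rw [cg_eq hs h3]; omega
        · have : g = 10 * m := by omega
          subst this
          rw [cg_eq_top hs]; omega
      refine ⟨hcg, ?_⟩
      unfold cp
      rw [hcg, List.getElem?_eq_none]
      refine hl.trans ?_
      unfold cs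
      rw [hcg, Nat.le_div_iff_mul_le (by omega)]
      omega)
  omega

theorem grp_card_lt {n s m g : ℕ} (hs : 1 ≤ s) (hn : 10 * m * (8 * s) + 8 * s ≤ n)
    (hg : g < 10 * m) :
    (Finset.univ.filter (fun v : Fin n => cg s m v.1 = g)).card = 8 * s := by
  have hgn : g * (8 * s) + 8 * s ≤ n := by
    have h1 : g * (8 * s) ≤ 10 * m * (8 * s) := Nat.mul_le_mul_right _ hg.le
    omega
  apply le_antisymm
  · have := card_Ico_le (n := n) (P := fun v : Fin n => cg s m v.1 = g)
      (fun v hv => (cg_eq hs hg).mp hv)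
    omega
  · have := card_Ico_ge (n := n) (P := fun v : Fin n => cg s m v.1 = g)
      hgn (fun v h1 h2 => (cg_eq hs hg).mpr ⟨h1, h2⟩)
    omega

theorem grp_card_top {n s m : ℕ} (hs : 1 ≤ s) :
    (Finset.univ.filter (fun v : Fin n => cg s m v.1 = 10 * m)).card = n - 10 * m * (8 * s) := by
  apply le_antisymm
  · exact card_Ico_le (n := n) (P := fun v : Fin n => cg s m v.1 = 10 * m)
      (fun v hv => ⟨(cg_eq_top hs).mp hv, v.2⟩)
  · exact card_Ico_ge (n := n) (P := fun v : Fin n => cg s m v.1 = 10 * m)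
      le_rfl (fun v h1 h2 => (cg_eq_top hs).mpr h1)

theorem grp_dvd {n s m g : ℕ} (hs : 1 ≤ s) (hn : 10 * m * (8 * s) + 8 * s ≤ n) (hd : s ∣ n) :
    s ∣ (Finset.univ.filter (fun v : Fin n => cg s m v.1 = g)).card := by
  rcases Nat.lt_trichotomy g (10 * m) with h | h | h
  · rw [grp_card_lt hs hn h]
    exact dvd_mul_left s 8
  · subst h
    rw [grp_card_top hs]
    exact Nat.dvd_sub hd ((dvd_mul_left s 8).mul_left _)
  · rw [Finset.card_eq_zero.mpr]
    · exact dvd_zero s
    · rw [Finset.filter_eq_empty_iff]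
      rintro v - h1
      have := cg_le s m v.1
      omega

/-- The concrete blow-up. -/
noncomputable def conc (n s m : ℕ) (hs : 1 ≤ s) (hm : 1 ≤ m)
    (hn : 10 * m * (8 * s) + 8 * s ≤ n) : Blow n s where
  grp := fun v => cg s m v.1
  port := fun v => cp s m v.1
  Tg := (Finset.range (10 * m + 1)).filter (fun g => g = 10 * m ∨ g % 10 < 5)
  Qg := (Finset.range (10 * m)).filter (fun g => 5 ≤ g % 10)
  nbs := fun g => (nbl m g).toFinset
  port_nbs := by
    intro v u h
    rw [List.mem_toFinset]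
    exact List.mem_of_getElem? h
  TQ := by
    intro g hg u hu
    rw [Finset.mem_filter, Finset.mem_range] at hg
    rw [List.mem_toFinset] at hu
    have := nbl_T hm (by omega) hg.2 hu
    rw [Finset.mem_filter, Finset.mem_range]
    exact this
  degQ := by
    intro g hg
    rw [Finset.mem_filter, Finset.mem_range] at hg
    exact (List.toFinset_card_le _).trans (nbl_length_Q hg.1 hg.2)
  lt := by
    have hinj : Set.InjOn (fun g : ℕ => g - 5)
        (((Finset.range (10 * m)).filter (fun g => 5 ≤ g % 10) : Finset ℕ) : Set ℕ) := by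
      intro x hx y hy hxy
      simp only [Finset.coe_filter, Finset.mem_range, Set.mem_ofPred_eq] at hx hy hxy
      omega
    rw [← Finset.card_image_of_injOn hinj]
    apply Finset.card_lt_card
    rw [Finset.ssubset_iff]
    refine ⟨10 * m, ?_, ?_⟩
    · intro h
      obtain ⟨x, hx, hx'⟩ := Finset.mem_image.mp h
      rw [Finset.mem_filter, Finset.mem_range] at hx
      omega
    · intro x hx
      rcases Finset.mem_insert.mp hx with rfl | hx
      · rw [Finset.mem_filter, Finset.mem_range]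
        omega
      · obtain ⟨y, hy, rfl⟩ := Finset.mem_image.mp hx
        rw [Finset.mem_filter, Finset.mem_range] at hy ⊢
        omega
  two := by
    have h : ({5, 6} : Finset ℕ) ⊆ (Finset.range (10 * m)).filter (fun g => 5 ≤ g % 10) := by
      intro x hx
      rw [Finset.mem_insert, Finset.mem_singleton] at hx
      rw [Finset.mem_filter, Finset.mem_range]
      omega
    have h1 := Finset.card_le_card h
    rw [Finset.card_pair (by norm_num)] at h1
    exact h1
  disj := by
    intro g hg hg'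
    rw [Finset.mem_filter, Finset.mem_range] at hg hg'
    omega
  portc := fun g u => port_card_le hs hm hn
  core := by
    intro g hg
    have hg' : g ≤ 10 * m := by
      rcases hg with hg | hg
      · rw [Finset.mem_filter, Finset.mem_range] at hg; omega
      · rw [Finset.mem_filter, Finset.mem_range] at hg; omega
    have h1 := core_card (n := n) (m := m) (g := g) hs hn hg'
    obtain ⟨v, hv⟩ := Finset.card_pos.mp (show 0 < (Finset.univ.filter
      (fun v : Fin n => cg s m v.1 = g ∧ cp s m v.1 = none)).card by omega)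
    exact ⟨v, (Finset.mem_filter.mp hv).2⟩

section

variable {n s m : ℕ} {hs : 1 ≤ s} {hm : 1 ≤ m} {hn : 10 * m * (8 * s) + 8 * s ≤ n}

theorem conc_adj_of {g u : ℕ} (hg : g ≤ 10 * m) (hu : u ≤ 10 * m) (h1 : u ∈ nbl m g)
    (h2 : g ∈ nbl m u) : (conc n s m hs hm hn).adj g u :=
  ⟨port_card hs hm hn hg h1, port_card hs hm hn hu h2⟩

theorem conc_adj {p q : ℕ} (hm2 : 2 ≤ m) (h : badj m p q) : (conc n s m hs hm hn).adj p q := by
  obtain ⟨h1, h2⟩ := badj_nbl hm2 h
  obtain ⟨h3, h4⟩ := badj_le hm h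
  exact conc_adj_of h3 h4 h1 h2

end

theorem chain_excl {R : ℕ → ℕ → Prop} {t t' f f' σ σ' : ℕ} {π : List ℕ}
    (hch : (t :: ((σ :: (π ++ [σ'])) ++ [t'])).IsChain R)
    (hnd : (t :: ((σ :: (π ++ [σ'])) ++ [t'])).Nodup) (hσ : σ ≠ f) (hσ' : σ' ≠ f') :
    (t :: ((σ :: (π ++ [σ'])) ++ [t'])).IsChain (fun p q => R p q ∧ ¬ (p = t ∧ q = f) ∧
      ¬ (p = f ∧ q = t) ∧ ¬ (p = t' ∧ q = f') ∧ ¬ (p = f' ∧ q = t')) := by
  have hlen : (t :: ((σ :: (π ++ [σ'])) ++ [t'])).length = π.length + 4 := by simp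
  set L := t :: ((σ :: (π ++ [σ'])) ++ [t']) with hL
  have e0 : L[0]'(by omega) = t := by simp [hL]
  have e1 : L[1]'(by omega) = σ := by simp [hL]
  have e2 : L[π.length + 2]'(by omega) = σ' := by
    simp [hL]
  have e3 : L[π.length + 3]'(by omega) = t' := by
    simp [hL]
  rw [List.isChain_iff_getElem] at hch ⊢
  intro i hi
  have inj := fun (a b : ℕ) (ha : a < L.length) (hb : b < L.length) =>
    (List.Nodup.getElem_inj_iff hnd (hi := ha) (hj := hb)).mp
  refine ⟨hch i hi, ?_, ?_, ?_, ?_⟩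
  · rintro ⟨h1, h2⟩
    have := inj i 0 (by omega) (by omega) (h1.trans e0.symm)
    subst this
    exact hσ (e1.symm.trans h2)
  · rintro ⟨h1, h2⟩
    have := inj (i + 1) 0 (by omega) (by omega) (h2.trans e0.symm)
    omega
  · rintro ⟨h1, h2⟩
    have := inj i (π.length + 3) (by omega) (by omega) (h1.trans e3.symm)
    omega
  · rintro ⟨h1, h2⟩
    have := inj (i + 1) (π.length + 3) (by omega) (by omega) (h2.trans e3.symm)
    have h3 : i = π.length + 2 := by omega
    subst h3
    exact hσ' (e2.symm.trans h1)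

end Pool.Agent.Helper74.HamOne
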