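import Pool.Agent.Helper74.HamOne.Nbl

set_option autoImplicit false

namespace Pool.Agent.Helper74.HamOne

theorem nbl_symm_Q {m g u : ℕ} (hg : g < 10 * m) (hQ : 5 ≤ g % 10) (hu : u ∈ nbl m g)
    (hu' : u ≠ 10 * m) : g ∈ nbl m u := by
  obtain ⟨i, hi⟩ : ∃ i, i = g / 10 := ⟨_, rfl⟩
  have him : i < m := by omega
  have h0 := nbl_0 him
  have h1 := nbl_1 him
  have h2 := nbl_2 him
  have h3 := nbl_3 him
  have h4 := nbl_4 him
  obtain h | h | h | h | h : g % 10 = 5 ∨ g % 10 = 6 ∨ g % 10 = 7 ∨ g % 10 = 8 ∨ g % 10 = 9 := by
    omega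
  · obtain rfl : g = 10 * i + 5 := by omega
    rw [nbl_5 him, List.mem_append, List.mem_cons, List.mem_singleton] at hu
    rcases hu with (rfl | rfl) | hu
    · rw [h2]; simp
    · rw [h3]; simp
    · split_ifs at hu with h5
      · rw [List.mem_singleton] at hu
        have e1 : u = 10 * (i - 1) + 0 := by omega
        rw [e1, nbl_0 (by omega), if_pos (by omega)]
        simp; omega
      · rw [List.mem_singleton] at hu
        exact absurd hu hu'
  · obtain rfl : g = 10 * i + 6 := by omega
    rw [nbl_6 him, List.mem_append, List.mem_cons, List.mem_singleton] at hu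
    rcases hu with (rfl | rfl) | hu
    · rw [h3]; simp
    · rw [h4]; simp
    · split_ifs at hu with h5
      · rw [List.mem_singleton] at hu
        have e1 : u = 10 * (i - 1) + 0 := by omega
        rw [e1, nbl_0 (by omega), if_pos (by omega)]
        simp; omega
      · simp at hu
  · obtain rfl : g = 10 * i + 7 := by omega
    rw [nbl_7 him, List.mem_append, List.mem_cons, List.mem_singleton] at hu
    rcases hu with (rfl | rfl) | hu
    · rw [h2]; simp
    · rw [h4]; simp
    · split_ifs at hu with h5
      · rw [List.mem_singleton] at hu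
        have e1 : u = 10 * (i + 1) + 1 := by omega
        rw [e1, nbl_1 (by omega), if_pos (by omega)]
        simp; omega
      · rw [List.mem_singleton] at hu
        exact absurd hu hu'
  · obtain rfl : g = 10 * i + 8 := by omega
    rw [nbl_8 him] at hu
    simp only [List.mem_cons, List.not_mem_nil, or_false] at hu
    rcases hu with rfl | rfl | rfl
    · rw [h0]; simp
    · rw [h1]; simp
    · rw [h2]; simp
  · obtain rfl : g = 10 * i + 9 := by omega
    rw [nbl_9 him] at hu
    simp only [List.mem_cons, List.not_mem_nil, or_false] at hu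
    rcases hu with rfl | rfl | rfl
    · rw [h0]; simp
    · rw [h1]; simp
    · rw [h4]; simp

end Pool.Agent.Helper74.HamOne
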