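import Pool.Agent.Helper74.HamOne.Conc
import Pool.Agent.Helper74.HamOne.NblSym

set_option autoImplicit false
open Classical

namespace Pool.Agent.Helper74.HamOne

open Pool.Agent.Helper74.HamSat

/-- vertices in the inner blocks -/
def gd (s m x : ℕ) : Prop := cg s m x < 10 * m ∧ 2 ≤ cg s m x / 10 ∧ cg s m x / 10 + 3 ≤ m

theorem exists_start {n s m : ℕ} {hs : 1 ≤ s} {hm : 1 ≤ m} {hn : 10 * m * (8 * s) + 8 * s ≤ n}
    (hm2 : 2 ≤ m) (hd : s ∣ n) {e : Finset (Fin n)} (hek : e.card = s + 1) {a b : Fin n}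
    (ha : a ∈ e) (hb : b ∈ e) (hab : a ≠ b) (hbg : gd s m b.1) 
    (hfar : cg s m b.1 / 10 + 5 ≤ cg s m a.1 / 10 ∨ cg s m a.1 / 10 + 5 ≤ cg s m b.1 / 10) :
    ∃ t f, t % 10 < 5 ∧ t / 10 ≤ cg s m b.1 / 10 + 1 ∧ cg s m b.1 / 10 ≤ t / 10 + 1 ∧
      ∀ h, h ≠ f → badj m t h → ∃ L I, Blow.Start (conc n s m hs hm hn) e b t f h L I := by
  obtain ⟨hb1, hb2, hb3⟩ := hbg
  have hbig : ∀ g, g < 10 * m → 2 * s + 2 ≤
      (Finset.univ.filter (fun x : Fin n => (conc n s m hs hm hn).grp x = g)).card := by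
    intro g hg
    have := grp_card_lt (n := n) hs hn hg
    show 2 * s + 2 ≤ (Finset.univ.filter (fun x : Fin n => cg s m x.1 = g)).card
    omega
  have hW : ∀ g, s ∣ (Finset.univ.filter (fun x : Fin n => (conc n s m hs hm hn).grp x = g)).card :=
    fun g => grp_dvd hs hn hd
  rcases Nat.lt_or_ge (cg s m b.1 % 10) 5 with h5 | h5
  · -- type T
    refine ⟨cg s m b.1, (cp s m b.1).getD 0, h5, by omega, by omega, ?_⟩
    intro h hhf hadj
    refine Blow.start_T hek ha hb hab _ rfl ?_ (hW _) (hbig _ hb1) (conc_adj hm2 hadj) ?_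
    · intro h1
      have h2 : cg s m a.1 = cg s m b.1 := h1
      omega
    · intro h1
      have h2 : cp s m b.1 = some h := h1 b hb rfl
      apply hhf
      rw [h2]
      rfl
  · -- type Q
    obtain ⟨t, htv, hpt⟩ : ∃ t, t ∈ nbl m (cg s m b.1) ∧
        (cp s m b.1 = none ∨ cp s m b.1 = some t) := by
      rcases h : cp s m b.1 with _ | u
      · obtain ⟨u, hu⟩ := List.exists_mem_of_length_pos (nbl_pos (m := m) (g := cg s m b.1))
        exact ⟨u, hu, Or.inl rfl⟩
      · exact ⟨u, List.mem_of_getElem? h, Or.inr rfl⟩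
    have h1 := nbl_Q hb1 h5 htv
    have h2 : t ≠ 10 * m := by
      rintro rfl
      have := nbl_tau hb1 htv
      omega
    have h3 : t < 10 * m ∧ t % 10 < 5 := by
      rcases h1 with h1 | h1
      · exact h1
      · exact absurd h1 h2
    have h4 := nbl_near hb1 htv h3.1
    refine ⟨t, cg s m b.1, h3.2, h4.1, h4.2, ?_⟩
    intro h hhf hadj
    have hvt : (conc n s m hs hm hn).adj (cg s m b.1) t :=
      conc_adj_of hb1.le h3.1.le htv (nbl_symm_Q hb1 h5 htv h2)
    refine Blow.start_Q hek ha hb hab rfl ?_ ?_ ?_ (Ne.symm hhf) (hW _) (hbig _ h3.1) hvt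
      (conc_adj hm2 hadj) hpt ?_
    · intro h1
      have h2 : cg s m a.1 = cg s m b.1 := h1
      omega
    · intro h1
      have h2 : cg s m a.1 = t := h1
      omega
    · intro h1
      have h2 : cg s m b.1 = t := h1
      rw [h2] at h5
      omega
    · have := core_card (n := n) (g := cg s m b.1) hs hn hb1.le
      show 2 * s ≤ (Finset.univ.filter (fun x : Fin n => cg s m x.1 = cg s m b.1 ∧
        cp s m x.1 = none)).card
      omega

theorem good_ham {n s m : ℕ} {hs : 1 ≤ s} {hm : 1 ≤ m} {hn : 10 * m * (8 * s) + 8 * s ≤ n}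
    (hm2 : 2 ≤ m) (hd : s ∣ n) {e : Finset (Fin n)} (hek : e.card = s + 1) {a b : Fin n}
    (ha : a ∈ e) (hb : b ∈ e) (hag : gd s m a.1) (hbg : gd s m b.1)
    (hfar : cg s m b.1 / 10 + 5 ≤ cg s m a.1 / 10) :
    Ham n (s + 1) s (insert e (conc n s m hs hm hn).H1) := by
  have hab : a ≠ b := by
    rintro rfl
    omega
  obtain ⟨t, f, ht, ht1, ht2, hst⟩ := exists_start (hs := hs) (hm := hm) (hn := hn) hm2 hd hek ha hb
    hab hbg (Or.inl hfar)
  obtain ⟨t', f', ht', ht1', ht2', hst'⟩ := exists_start (hs := hs) (hm := hm) (hn := hn) hm2 hd hek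
    hb ha hab.symm hag (Or.inr hfar)
  obtain ⟨hb1, hb2, hb3⟩ := hbg
  obtain ⟨ha1, ha2, ha3⟩ := hag
  obtain ⟨σ, σ', π, hσ, hσ', hch, hnd, hcov⟩ := base_path (m := m) (i := t / 10) (i' := t' / 10)
    (t := t % 10) (t' := t' % 10) f f' ht ht' (by omega) (by omega) (by omega)
  have e1 : 10 * (t / 10) + t % 10 = t := by omega
  have e2 : 10 * (t' / 10) + t' % 10 = t' := by omega
  rw [e1, e2] at hch hnd hcov
  have hadj1 : badj m t σ := by
    rw [List.cons_append, List.isChain_cons_cons] at hch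
    exact hch.1
  have hadj2 : badj m σ' t' := by
    have h1 : (t :: (σ :: (π ++ [σ']) ++ [t'])) = (t :: σ :: π) ++ [σ', t'] := by simp
    rw [h1, List.isChain_append] at hch
    have h2 := hch.2.1
    rw [List.isChain_cons_cons] at h2
    exact h2.1
  obtain ⟨L0, I0, S0⟩ := hst σ hσ hadj1
  obtain ⟨La, Ia, Sa⟩ := hst' σ' hσ' (badj_symm hadj2)
  have hch2 := chain_excl hch hnd hσ hσ'
  refine Blow.main_route hs hd (by omega) (fun g => grp_dvd hs hn hd) hek ha hb hab S0 Sa ?_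
    (σ :: (π ++ [σ'])) rfl ?_ hnd ?_ ?_
  · intro x hx hx'
    have h1 : cg s m x.1 = t ∨ cg s m x.1 = cg s m b.1 := S0.wh2 x hx
    have h2 : cg s m x.1 = t' ∨ cg s m x.1 = cg s m a.1 := Sa.wh2 x hx'
    omega
  · have h1 : (t :: σ :: (π ++ [σ'])) = (t :: σ :: π) ++ [σ'] := by simp
    simp only [h1]
    exact List.getLast_append_singleton _
  · exact hch2.imp (fun p q h => ⟨conc_adj hm2 h.1, h.2⟩)
  · intro x
    have h1 : cg s m x.1 ≤ 10 * m := cg_le s m x.1
    have h2 := (hcov (cg s m x.1)).mpr (by omega)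
    rw [List.mem_cons, List.mem_append, List.mem_singleton] at h2
    show cg s m x.1 = t ∨ cg s m x.1 = t' ∨ cg s m x.1 ∈ _
    tauto

noncomputable def bad (n s m : ℕ) : Finset (Finset (Fin n)) :=
  Finset.univ.filter (fun e => e.card = s + 1 ∧ ¬ ∃ a ∈ e, ∃ b ∈ e, gd s m a.1 ∧ gd s m b.1 ∧
    cg s m b.1 / 10 + 5 ≤ cg s m a.1 / 10)

theorem H1_sub_bad {n s m : ℕ} {hs : 1 ≤ s} {hm : 1 ≤ m} {hn : 10 * m * (8 * s) + 8 * s ≤ n} :
    (conc n s m hs hm hn).H1 ⊆ bad n s m := by
  intro e he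
  obtain ⟨-, he1, he2⟩ := Finset.mem_filter.mp he
  refine Finset.mem_filter.mpr ⟨Finset.mem_univ _, he1, ?_⟩
  rintro ⟨a, ha, b, hb, hag, hbg, hab⟩
  rcases he2 with ⟨g, hg⟩ | ⟨g, u, hgu⟩
  · have h1 : cg s m a.1 = g := hg a ha
    have h2 : cg s m b.1 = g := hg b hb
    omega
  · have key : ∀ x : Fin n, gd s m x.1 → ∀ p q, cg s m x.1 = p → cp s m x.1 = some q → q < 10 * m →
        p / 10 ≤ q / 10 + 1 ∧ q / 10 ≤ p / 10 + 1 := by
      intro x hx p q hp hq hq'
      unfold cp at hq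
      rw [hp] at hq
      have h1 := List.mem_of_getElem? hq
      have h2 := nbl_near (by rw [← hp]; exact hx.1) h1 hq'
      exact ⟨h2.2, h2.1⟩
    have h1 : (cg s m a.1 = g ∧ cp s m a.1 = some u) ∨ (cg s m a.1 = u ∧ cp s m a.1 = some g) :=
      hgu a ha
    have h2 : (cg s m b.1 = g ∧ cp s m b.1 = some u) ∨ (cg s m b.1 = u ∧ cp s m b.1 = some g) :=
      hgu b hb
    have ha1 := hag.1
    have hb1 := hbg.1
    rcases h1 with ⟨h1, h1'⟩ | ⟨h1, h1'⟩ <;> rcases h2 with ⟨h2, h2'⟩ | ⟨h2, h2'⟩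
    · omega
    · have := key a hag _ _ h1 h1' (by omega)
      omega
    · have := key a hag _ _ h1 h1' (by omega)
      omega
    · omega

theorem bad_card {n s m : ℕ} (hs : 1 ≤ s) (hm : 2 ≤ m) 
    (hn2 : n < 10 * m * (8 * s) + 88 * s) :
    (bad n s m).card ≤ (m + 1) * 2 ^ (808 * s) := by
  let N : ℕ → Finset (Fin n) := fun i => Finset.univ.filter (fun v => ¬ gd s m v.1 ∨
    (i ≤ cg s m v.1 / 10 ∧ cg s m v.1 / 10 < i + 5))
  have hN : ∀ i, (N i).card ≤ 808 * s := by
    intro i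
    have hsub : N i ⊆ (Finset.univ.filter (fun v : Fin n => v.1 < 160 * s)) ∪
        ((Finset.univ.filter (fun v : Fin n => 80 * (m - 2) * s ≤ v.1)) ∪
        (Finset.univ.filter (fun v : Fin n => 80 * i * s ≤ v.1 ∧ v.1 < 80 * i * s + 400 * s))) := by
      intro v hv
      obtain ⟨-, hv⟩ := Finset.mem_filter.mp hv
      rw [Finset.mem_union, Finset.mem_union, Finset.mem_filter, Finset.mem_filter,
        Finset.mem_filter]
      by_contra hcon
      push Not at hcon
      have h1 : 160 * s ≤ v.1 := hcon.1 (Finset.mem_univ _)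
      have h2 : v.1 < 80 * (m - 2) * s := hcon.2.1 (Finset.mem_univ _)
      have h3 : 80 * i * s ≤ v.1 → 80 * i * s + 400 * s ≤ v.1 := hcon.2.2 (Finset.mem_univ _)
      set q := v.1 / (8 * s) with hq
      have hq1 : 20 ≤ q := by
        rw [hq, Nat.le_div_iff_mul_le (by omega)]; omega
      have hq2 : q < 10 * (m - 2) := by
        rw [hq, Nat.div_lt_iff_lt_mul (by omega)]
        calc v.1 < 80 * (m - 2) * s := h2
          _ = 10 * (m - 2) * (8 * s) := by ring
      have hq3 : 10 * i ≤ q → 10 * i + 50 ≤ q := by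
        intro h
        rw [hq, Nat.le_div_iff_mul_le (by omega)] at h ⊢
        have e1 : 10 * i * (8 * s) = 80 * i * s := by ring
        have e2 : (10 * i + 50) * (8 * s) = 80 * i * s + 400 * s := by ring
        rw [e1] at h
        rw [e2]
        exact h3 h
      have hcg : cg s m v.1 = q := by
        unfold cg
        rw [← hq]
        omega
      rw [hcg] at hv
      unfold gd at hv
      rw [hcg] at hv
      omega
    have c1 : (Finset.univ.filter (fun v : Fin n => v.1 < 160 * s)).card ≤ 160 * s := by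
      have := card_Ico_le (n := n) (A := 0) (B := 160 * s) (P := fun v : Fin n => v.1 < 160 * s)
        (fun v hv => ⟨Nat.zero_le _, hv⟩)
      omega
    have c2 : (Finset.univ.filter (fun v : Fin n => 80 * (m - 2) * s ≤ v.1)).card ≤ 248 * s := by
      have := card_Ico_le (n := n) (A := 80 * (m - 2) * s) (B := n)
        (P := fun v : Fin n => 80 * (m - 2) * s ≤ v.1) (fun v hv => ⟨hv, v.2⟩)
      have e1 : 10 * m * (8 * s) = 80 * (m - 2) * s + 160 * s := by
        obtain ⟨m', rfl⟩ : ∃ m', m = m' + 2 := ⟨m - 2, by omega⟩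
        rw [Nat.add_sub_cancel]
        ring
      omega
    have c3 : (Finset.univ.filter (fun v : Fin n => 80 * i * s ≤ v.1 ∧
        v.1 < 80 * i * s + 400 * s)).card ≤ 400 * s := by
      have := card_Ico_le (n := n) (A := 80 * i * s) (B := 80 * i * s + 400 * s)
        (P := fun v : Fin n => 80 * i * s ≤ v.1 ∧ v.1 < 80 * i * s + 400 * s) (fun v hv => hv)
      omega
    have d1 := Finset.card_le_card hsub
    have d2 := Finset.card_union_le (Finset.univ.filter (fun v : Fin n => v.1 < 160 * s))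
      ((Finset.univ.filter (fun v : Fin n => 80 * (m - 2) * s ≤ v.1)) ∪
        (Finset.univ.filter (fun v : Fin n => 80 * i * s ≤ v.1 ∧ v.1 < 80 * i * s + 400 * s)))
    have d3 := Finset.card_union_le (Finset.univ.filter (fun v : Fin n => 80 * (m - 2) * s ≤ v.1))
      (Finset.univ.filter (fun v : Fin n => 80 * i * s ≤ v.1 ∧ v.1 < 80 * i * s + 400 * s))
    omega
  have hsub : bad n s m ⊆ (Finset.range (m + 1)).biUnion (fun i => (N i).powerset) := by
    intro e he
    obtain ⟨-, he1, he2⟩ := Finset.mem_filter.mp he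
    rw [Finset.mem_biUnion]
    by_cases hne : ∃ b ∈ e, gd s m b.1
    · obtain ⟨b, hb, hmin⟩ := Finset.exists_min_image (e.filter (fun b => gd s m b.1))
        (fun b => cg s m b.1 / 10) (by
          obtain ⟨b, hb1, hb2⟩ := hne
          exact ⟨b, Finset.mem_filter.mpr ⟨hb1, hb2⟩⟩)
      obtain ⟨hb1, hb2⟩ := Finset.mem_filter.mp hb
      refine ⟨cg s m b.1 / 10, Finset.mem_range.mpr ?_, Finset.mem_powerset.mpr ?_⟩
      · have := hb2.2.2
        omega
      · intro v hv
        refine Finset.mem_filter.mpr ⟨Finset.mem_univ _, ?_⟩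
        by_cases hvg : gd s m v.1
        · right
          refine ⟨hmin v (Finset.mem_filter.mpr ⟨hv, hvg⟩), ?_⟩
          by_contra hcon
          exact he2 ⟨v, hv, b, hb1, hvg, hb2, by omega⟩
        · exact Or.inl hvg
    · refine ⟨0, Finset.mem_range.mpr (by omega), Finset.mem_powerset.mpr ?_⟩
      intro v hv
      refine Finset.mem_filter.mpr ⟨Finset.mem_univ _, Or.inl ?_⟩
      intro h
      exact hne ⟨v, hv, h⟩
  calc (bad n s m).card ≤ _ := Finset.card_le_card hsub
    _ ≤ ∑ i ∈ Finset.range (m + 1), ((N i).powerset).card := Finset.card_biUnion_le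
    _ ≤ ∑ i ∈ Finset.range (m + 1), 2 ^ (808 * s) := by
        refine Finset.sum_le_sum (fun i _ => ?_)
        rw [Finset.card_powerset]
        exact Nat.pow_le_pow_right (by norm_num) (hN i)
    _ = (m + 1) * 2 ^ (808 * s) := by
        rw [Finset.sum_const, Finset.card_range, smul_eq_mul]

theorem goal_one {k : ℕ} (hk : 2 ≤ k) : Goal k 1 := by
  obtain ⟨s, rfl⟩ : ∃ s, k = s + 1 := ⟨k - 1, by omega⟩
  have hs : 1 ≤ s := by omega
  refine goal_of_construction (s := s) le_rfl hs (by omega) (2 * 2 ^ (808 * s)) (1000 * s) ?_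
  intro n hnN hd
  set m := (n - 8 * s) / (80 * s) with hmdef
  have hm2 : 2 ≤ m := by
    rw [hmdef, Nat.le_div_iff_mul_le (by omega)]
    omega
  have hm : 1 ≤ m := by omega
  have hn1 : m * (80 * s) ≤ n - 8 * s := Nat.div_mul_le_self _ _
  have hn2 : n - 8 * s < m * (80 * s) + 80 * s := Nat.lt_div_mul_add (by omega)
  have e1 : m * (80 * s) = 10 * m * (8 * s) := by ring
  rw [e1] at hn1 hn2
  have hn : 10 * m * (8 * s) + 8 * s ≤ n := by omega
  refine ⟨(conc n s m hs hm hn).H1, bad n s m, ?_, ?_, ?_, ?_⟩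
  · intro e he
    exact (Finset.mem_filter.mp he).2.1
  · exact (conc n s m hs hm hn).not_ham hs (by omega) hd
  · intro e hek hbad _
    have h1 : ∃ a ∈ e, ∃ b ∈ e, gd s m a.1 ∧ gd s m b.1 ∧
        cg s m b.1 / 10 + 5 ≤ cg s m a.1 / 10 := by
      by_contra hcon
      exact hbad (Finset.mem_filter.mpr ⟨Finset.mem_univ _, hek, hcon⟩)
    obtain ⟨a, ha, b, hb, hag, hbg, hab⟩ := h1
    exact good_ham hm2 hd hek ha hb hag hbg hab
  · have h1 := Finset.card_le_card (H1_sub_bad (hs := hs) (hm := hm) (hn := hn))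
    have h2 := bad_card (n := n) hs hm2 (by omega)
    have h3 : m + 1 ≤ n := by
      have : m * 80 ≤ m * (80 * s) := Nat.mul_le_mul_left m (by omega)
      omega
    calc (conc n s m hs hm hn).H1.card + (bad n s m).card
        ≤ 2 * ((m + 1) * 2 ^ (808 * s)) := by omega
      _ ≤ 2 * (n * 2 ^ (808 * s)) := by gcongr
      _ = 2 * 2 ^ (808 * s) * n ^ 1 := by ring

end Pool.Agent.Helper74.HamOne
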