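import Pool.Agent.Helper74.HamOne.Base

set_option autoImplicit false

namespace Pool.Agent.Helper74.HamOne

/-- neighbour lists of the base graph -/
def nbl (m g : ℕ) : List ℕ :=
  if g = 10 * m then [5, 10 * (m - 1) + 7] else
  if g % 10 = 0 then [g + 8, g + 9] ++ (if g / 10 + 1 < m then [g + 15, g + 16] else []) else
  if g % 10 = 1 then [g + 7, g + 8] ++ (if 1 ≤ g / 10 then [g - 4] else []) else
  if g % 10 = 2 then [g + 3, g + 5, g + 6] else
  if g % 10 = 3 then [g + 2, g + 3] else
  if g % 10 = 4 then [g + 2, g + 3, g + 5] else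
  if g % 10 = 5 then [g - 3, g - 2] ++ (if 1 ≤ g / 10 then [g - 15] else [10 * m]) else
  if g % 10 = 6 then [g - 3, g - 2] ++ (if 1 ≤ g / 10 then [g - 16] else []) else
  if g % 10 = 7 then [g - 5, g - 3] ++ (if g / 10 + 1 < m then [g + 4] else [10 * m]) else
  if g % 10 = 8 then [g - 8, g - 7, g - 6] else [g - 9, g - 8, g - 5]

theorem nbl_length (m g : ℕ) : (nbl m g).length ≤ 4 := by
  unfold nbl
  split_ifs <;> simp

theorem nbl_length_Q {m g : ℕ} (hg : g < 10 * m) (h5 : 5 ≤ g % 10) : (nbl m g).length ≤ 3 := by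
  unfold nbl
  split_ifs <;> first | omega | simp

theorem nbl_pos {m g : ℕ} : 1 ≤ (nbl m g).length := by
  unfold nbl
  split_ifs <;> simp

theorem nbl_nodup {m g : ℕ} (hm : 1 ≤ m) (hg : g ≤ 10 * m) : (nbl m g).Nodup := by
  unfold nbl
  split_ifs <;> simp <;> omega

theorem nbl_T {m g u : ℕ} (hm : 1 ≤ m) (hg : g ≤ 10 * m) (hT : g = 10 * m ∨ g % 10 < 5)
    (hu : u ∈ nbl m g) : u < 10 * m ∧ 5 ≤ u % 10 := by
  unfold nbl at hu
  split_ifs at hu <;> simp at hu <;> omega

theorem nbl_Q {m g u : ℕ} (hg : g < 10 * m) (hQ : 5 ≤ g % 10)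
    (hu : u ∈ nbl m g) : (u < 10 * m ∧ u % 10 < 5) ∨ u = 10 * m := by
  unfold nbl at hu
  split_ifs at hu <;> simp at hu <;> omega

theorem nbl_near {m g u : ℕ} (hg : g < 10 * m) (hu : u ∈ nbl m g) (hu' : u < 10 * m) :
    u / 10 ≤ g / 10 + 1 ∧ g / 10 ≤ u / 10 + 1 := by
  unfold nbl at hu
  split_ifs at hu <;> simp at hu <;> omega

theorem nbl_tau {m g : ℕ} (hg : g < 10 * m) (hu : 10 * m ∈ nbl m g) :
    g / 10 = 0 ∨ g / 10 + 1 = m := by
  unfold nbl at hu
  split_ifs at hu <;> simp at hu <;> omega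

theorem conn0_nbl {m p q : ℕ} (hm : 2 ≤ m) (h : conn0 m p q) : q ∈ nbl m p ∧ p ∈ nbl m q := by
  rcases h with ⟨i, hi, h | h | h⟩ | h | h
  · obtain ⟨rfl, rfl⟩ := h
    constructor
    · unfold nbl
      rw [if_neg (by omega), if_pos (by omega), if_pos (by omega)]
      simp; omega
    · unfold nbl
      rw [if_neg (by omega), if_neg (by omega), if_neg (by omega), if_neg (by omega),
        if_neg (by omega), if_neg (by omega), if_pos (by omega), if_pos (by omega)]
      simp; omega
  · obtain ⟨rfl, rfl⟩ := h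
    constructor
    · unfold nbl
      rw [if_neg (by omega), if_pos (by omega), if_pos (by omega)]
      simp; omega
    · unfold nbl
      rw [if_neg (by omega), if_neg (by omega), if_neg (by omega), if_neg (by omega),
        if_neg (by omega), if_neg (by omega), if_neg (by omega), if_pos (by omega),
        if_pos (by omega)]
      simp; omega
  · obtain ⟨rfl, rfl⟩ := h
    constructor
    · unfold nbl
      rw [if_neg (by omega), if_neg (by omega), if_neg (by omega), if_neg (by omega),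
        if_neg (by omega), if_neg (by omega), if_neg (by omega), if_neg (by omega),
        if_pos (by omega), if_pos (by omega)]
      simp; omega
    · unfold nbl
      rw [if_neg (by omega), if_neg (by omega), if_pos (by omega), if_pos (by omega)]
      simp; omega
  · obtain ⟨rfl, rfl⟩ := h
    constructor
    · unfold nbl
      rw [if_neg (by omega), if_neg (by omega), if_neg (by omega), if_neg (by omega),
        if_neg (by omega), if_neg (by omega), if_pos (by omega), if_neg (by omega)]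
      simp
    · unfold nbl
      rw [if_pos rfl]
      simp
  · obtain ⟨rfl, rfl⟩ := h
    constructor
    · unfold nbl
      rw [if_neg (by omega), if_neg (by omega), if_neg (by omega), if_neg (by omega),
        if_neg (by omega), if_neg (by omega), if_neg (by omega), if_neg (by omega),
        if_pos (by omega), if_neg (by omega)]
      simp
    · unfold nbl
      rw [if_pos rfl]
      simp

theorem nbl_0 {m i : ℕ} (hi : i < m) : nbl m (10 * i + 0) = [10 * i + 8, 10 * i + 9] ++
    (if i + 1 < m then [10 * i + 15, 10 * i + 16] else []) := by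
  unfold nbl
  rw [if_neg (by omega), if_pos (by omega)]
  have : (10 * i + 0) / 10 = i := by omega
  rw [this]

theorem nbl_1 {m i : ℕ} (hi : i < m) : nbl m (10 * i + 1) = [10 * i + 8, 10 * i + 9] ++
    (if 1 ≤ i then [10 * i + 1 - 4] else []) := by
  unfold nbl
  rw [if_neg (by omega), if_neg (by omega), if_pos (by omega)]
  have : (10 * i + 1) / 10 = i := by omega
  rw [this]

theorem nbl_2 {m i : ℕ} (hi : i < m) :
    nbl m (10 * i + 2) = [10 * i + 5, 10 * i + 7, 10 * i + 8] := by
  unfold nbl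
  rw [if_neg (by omega), if_neg (by omega), if_neg (by omega), if_pos (by omega)]

theorem nbl_3 {m i : ℕ} (hi : i < m) : nbl m (10 * i + 3) = [10 * i + 5, 10 * i + 6] := by
  unfold nbl
  rw [if_neg (by omega), if_neg (by omega), if_neg (by omega), if_neg (by omega),
    if_pos (by omega)]

theorem nbl_4 {m i : ℕ} (hi : i < m) :
    nbl m (10 * i + 4) = [10 * i + 6, 10 * i + 7, 10 * i + 9] := by
  unfold nbl
  rw [if_neg (by omega), if_neg (by omega), if_neg (by omega), if_neg (by omega),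
    if_neg (by omega), if_pos (by omega)]

theorem nbl_5 {m i : ℕ} (hi : i < m) : nbl m (10 * i + 5) = [10 * i + 2, 10 * i + 3] ++
    (if 1 ≤ i then [10 * i + 5 - 15] else [10 * m]) := by
  unfold nbl
  rw [if_neg (by omega), if_neg (by omega), if_neg (by omega), if_neg (by omega),
    if_neg (by omega), if_neg (by omega), if_pos (by omega)]
  have : (10 * i + 5) / 10 = i := by omega
  rw [this]
  have h1 : 10 * i + 5 - 3 = 10 * i + 2 := by omega
  have h2 : 10 * i + 5 - 2 = 10 * i + 3 := by omega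
  rw [h1, h2]

theorem nbl_6 {m i : ℕ} (hi : i < m) : nbl m (10 * i + 6) = [10 * i + 3, 10 * i + 4] ++
    (if 1 ≤ i then [10 * i + 6 - 16] else []) := by
  unfold nbl
  rw [if_neg (by omega), if_neg (by omega), if_neg (by omega), if_neg (by omega),
    if_neg (by omega), if_neg (by omega), if_neg (by omega), if_pos (by omega)]
  have : (10 * i + 6) / 10 = i := by omega
  rw [this]
  have h1 : 10 * i + 6 - 3 = 10 * i + 3 := by omega
  have h2 : 10 * i + 6 - 2 = 10 * i + 4 := by omega
  rw [h1, h2]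

theorem nbl_7 {m i : ℕ} (hi : i < m) : nbl m (10 * i + 7) = [10 * i + 2, 10 * i + 4] ++
    (if i + 1 < m then [10 * i + 11] else [10 * m]) := by
  unfold nbl
  rw [if_neg (by omega), if_neg (by omega), if_neg (by omega), if_neg (by omega),
    if_neg (by omega), if_neg (by omega), if_neg (by omega), if_neg (by omega), if_pos (by omega)]
  have : (10 * i + 7) / 10 = i := by omega
  rw [this]
  have h1 : 10 * i + 7 - 5 = 10 * i + 2 := by omega
  have h2 : 10 * i + 7 - 3 = 10 * i + 4 := by omega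
  rw [h1, h2]

theorem nbl_8 {m i : ℕ} (hi : i < m) :
    nbl m (10 * i + 8) = [10 * i + 0, 10 * i + 1, 10 * i + 2] := by
  unfold nbl
  rw [if_neg (by omega), if_neg (by omega), if_neg (by omega), if_neg (by omega),
    if_neg (by omega), if_neg (by omega), if_neg (by omega), if_neg (by omega),
    if_neg (by omega), if_pos (by omega)]
  have h1 : 10 * i + 8 - 8 = 10 * i + 0 := by omega
  have h2 : 10 * i + 8 - 7 = 10 * i + 1 := by omega
  have h3 : 10 * i + 8 - 6 = 10 * i + 2 := by omega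
  rw [h1, h2, h3]

theorem nbl_9 {m i : ℕ} (hi : i < m) :
    nbl m (10 * i + 9) = [10 * i + 0, 10 * i + 1, 10 * i + 4] := by
  unfold nbl
  rw [if_neg (by omega), if_neg (by omega), if_neg (by omega), if_neg (by omega),
    if_neg (by omega), if_neg (by omega), if_neg (by omega), if_neg (by omega),
    if_neg (by omega), if_neg (by omega)]
  have h1 : 10 * i + 9 - 9 = 10 * i + 0 := by omega
  have h2 : 10 * i + 9 - 8 = 10 * i + 1 := by omega
  have h3 : 10 * i + 9 - 5 = 10 * i + 4 := by omega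
  rw [h1, h2, h3]

theorem inner_nbl {m i x y : ℕ} (hi : i < m) (h : (x, y) ∈ prs) :
    10 * i + y ∈ nbl m (10 * i + x) ∧ 10 * i + x ∈ nbl m (10 * i + y) := by
  have h0 := nbl_0 hi
  have h1 := nbl_1 hi
  have h2 := nbl_2 hi
  have h3 := nbl_3 hi
  have h4 := nbl_4 hi
  have h5 := nbl_5 hi
  have h6 := nbl_6 hi
  have h7 := nbl_7 hi
  have h8 := nbl_8 hi
  have h9 := nbl_9 hi
  simp only [prs, List.mem_cons, Prod.mk.injEq, List.not_mem_nil, or_false] at h
  rcases h with ⟨rfl, rfl⟩ | ⟨rfl, rfl⟩ | ⟨rfl, rfl⟩ | ⟨rfl, rfl⟩ | ⟨rfl, rfl⟩ | ⟨rfl, rfl⟩ |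
    ⟨rfl, rfl⟩ | ⟨rfl, rfl⟩ | ⟨rfl, rfl⟩ | ⟨rfl, rfl⟩ | ⟨rfl, rfl⟩ | ⟨rfl, rfl⟩
  · rw [h2, h5]; simp
  · rw [h3, h5]; simp
  · rw [h3, h6]; simp
  · rw [h4, h6]; simp
  · rw [h2, h7]; simp
  · rw [h4, h7]; simp
  · rw [h0, h8]; simp
  · rw [h1, h8]; simp
  · rw [h2, h8]; simp
  · rw [h0, h9]; simp
  · rw [h1, h9]; simp
  · rw [h4, h9]; simp

theorem badj_nbl {m p q : ℕ} (hm : 2 ≤ m) (h : badj m p q) : q ∈ nbl m p ∧ p ∈ nbl m q := by
  rcases h with ⟨i, x, y, hi, hxy, rfl, rfl⟩ | h | h
  · rcases hxy with h | h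
    · exact inner_nbl hi h
    · exact (inner_nbl hi h).symm
  · exact conn0_nbl hm h
  · exact (conn0_nbl hm h).symm

theorem prs_T {x y : ℕ} (h : (x, y) ∈ prs) : x < 10 ∧ y < 10 := by
  simp only [prs, List.mem_cons, Prod.mk.injEq, List.not_mem_nil, or_false] at h
  omega

theorem badj_le {m p q : ℕ} (hm : 1 ≤ m) (h : badj m p q) : p ≤ 10 * m ∧ q ≤ 10 * m := by
  rcases h with ⟨i, x, y, hi, hxy, rfl, rfl⟩ | h | h
  · rcases hxy with h | h
    · have := prs_T h; omega
    · have := prs_T h; omega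
  · rcases h with ⟨i, hi, h | h | h⟩ | h | h <;> omega
  · rcases h with ⟨i, hi, h | h | h⟩ | h | h <;> omega

end Pool.Agent.Helper74.HamOne
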