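import Pool.Agent.Helper74.HamOne.Blow
import Pool.Agent.Helper74.HamSat.Side

set_option autoImplicit false
open Classical

namespace Pool.Agent.Helper74.HamOne

open Pool.Agent.Helper74.HamSat

namespace Blow

variable {n s : ℕ} {G : Blow n s}

/-- state of a partially built list: the last `s - c` entries lie in group `g` and are available for
the connection to group `u` -/
structure Ready (G : Blow n s) (g u c : ℕ) (L : List (Fin n)) : Prop where
  nd : L.Nodup
  aw : AW (s + 1) s 0 (· ∈ G.H1) L
  c_lt : c + 1 ≤ s
  dvd : s ∣ L.length + c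
  len : s - c ≤ L.length
  tail : ∀ x ∈ L.drop (L.length - (s - c)), G.grp x = g ∧ G.port x = some u

theorem mem_H1_grp {f : Finset (Fin n)} (hf : f.card = s + 1) (g : ℕ)
    (h : ∀ v ∈ f, G.grp v = g) : f ∈ G.H1 :=
  Finset.mem_filter.mpr ⟨Finset.mem_univ _, hf, Or.inl ⟨g, h⟩⟩

theorem mem_H1_conn {f : Finset (Fin n)} (hf : f.card = s + 1) (g u : ℕ)
    (h : ∀ v ∈ f, G.conn g u v) : f ∈ G.H1 :=
  Finset.mem_filter.mpr ⟨Finset.mem_univ _, hf, Or.inr ⟨g, u, h⟩⟩

theorem aw_grp {r : ℕ} {L : List (Fin n)} (hnd : L.Nodup) (g : ℕ) (h : ∀ v ∈ L, G.grp v = g) :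
    AW (s + 1) s r (· ∈ G.H1) L := by
  intro p _ hp
  refine mem_H1_grp (win_card hnd hp) g ?_
  intro v hv
  exact h v (List.mem_of_mem_drop (List.mem_of_mem_take (List.mem_toFinset.mp hv)))

/-- gluing along a crossing -/
theorem Ready.cross {g u c : ℕ} {L S : List (Fin n)} (h : Ready G g u c L)
    (hnd : (L ++ S).Nodup) (hS : ∀ r, r % s = L.length % s → AW (s + 1) s r (· ∈ G.H1) S)
    (hhd : ∀ x ∈ S.take (c + 1), G.grp x = u ∧ G.port x = some g) :
    AW (s + 1) s 0 (· ∈ G.H1) (L ++ S) := by
  have hs : 0 < s := by have := h.c_lt; omega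
  intro p hp hpl
  by_cases h1 : p + (s + 1) ≤ L.length
  · have := h.aw p hp h1
    rwa [List.drop_append_of_le_length (by omega), List.take_append_of_le_length
      (by rw [List.length_drop]; omega)]
  by_cases h2 : L.length ≤ p
  · have h3 := hS L.length rfl (p - L.length) (by
      have : p - L.length + L.length = p + 0 := by omega
      rwa [this]) (by
        simp only [List.length_append] at hpl
        omega)
    have h4 : (L ++ S).drop p = S.drop (p - L.length) := by
      rw [List.drop_append, List.drop_eq_nil_of_le h2, List.nil_append]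
    rwa [h4]
  · have hα : L.length - p = s - c := by
      have h3 : s ∣ (L.length - p) + c := by
        have h4 : L.length + c = p + ((L.length - p) + c) := by omega
        have h5 := h.dvd
        rw [h4] at h5
        exact (Nat.dvd_add_right (by simpa using hp)).mp h5
      obtain ⟨q, hq⟩ := h3
      have h6 := h.c_lt
      have hq1 : q < 2 := by
        by_contra hcon
        have : s * 2 ≤ s * q := Nat.mul_le_mul_left _ (by omega)
        omega
      have hq0 : q ≠ 0 := by
        rintro rfl
        rw [Nat.mul_zero] at hq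
        omega
      have : q = 1 := by omega
      rw [this, Nat.mul_one] at hq
      omega
    refine mem_H1_conn (win_card hnd hpl) g u ?_
    intro v hv
    rcases mem_win_append' (List.mem_toFinset.mp hv) (by omega) with h3 | h3
    · left
      have e : L.length - (s - c) = p := by omega
      have := h.tail v
      rw [e] at this
      exact this h3
    · right
      have e : s + 1 - (L.length - p) = c + 1 := by
        have := h.c_lt
        omega
      rw [e] at h3
      exact hhd v h3

theorem Ready.step {g g1 g2 c d : ℕ} {L : List (Fin n)} (h : Ready G g g1 c L)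
    (X : Finset (Fin n)) (hX : ∀ x ∈ X, G.grp x = g1) (hXL : ∀ x ∈ X, x ∉ L)
    (hd : s ∣ X.card + d) (hcd : c + d + 1 ≤ s)
    (h1 : s ≤ (X.filter (fun x => G.port x = some g)).card + d)
    (h2 : s ≤ (X.filter (fun x => G.port x = some g2)).card + d) (hne : g ≠ g2) :
    ∃ S : List (Fin n), S.Nodup ∧ (∀ x, x ∈ S ↔ x ∈ X) ∧ Ready G g1 g2 (c + d) (L ++ S) := by
  obtain ⟨A, hA, hAc⟩ := Finset.exists_subset_card_eq
    (s := X.filter (fun x => G.port x = some g)) (n := c + 1) (by omega)
  obtain ⟨B, hB, hBc⟩ := Finset.exists_subset_card_eq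
    (s := X.filter (fun x => G.port x = some g2)) (n := s - (c + d)) (by omega)
  have hAX : A ⊆ X := hA.trans (Finset.filter_subset _ _)
  have hBX : B ⊆ X := hB.trans (Finset.filter_subset _ _)
  have hAB : Disjoint A B := by
    rw [Finset.disjoint_left]
    intro x hx hx'
    have e1 := (Finset.mem_filter.mp (hA hx)).2
    have e2 := (Finset.mem_filter.mp (hB hx')).2
    rw [e1] at e2
    exact hne (Option.some.inj e2)
  let S := A.toList ++ ((X \ A) \ B).toList ++ B.toList
  have hSmem : ∀ x, x ∈ S ↔ x ∈ X := by
    intro x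
    simp only [S, List.mem_append, Finset.mem_toList, Finset.mem_sdiff]
    constructor
    · rintro ((h | h) | h)
      · exact hAX h
      · exact h.1.1
      · exact hBX h
    · intro hx
      by_cases hxA : x ∈ A
      · exact Or.inl (Or.inl hxA)
      · by_cases hxB : x ∈ B
        · exact Or.inr hxB
        · exact Or.inl (Or.inr ⟨⟨hx, hxA⟩, hxB⟩)
  have hSnd : S.Nodup := by
    simp only [S]
    rw [List.nodup_append, List.nodup_append]
    refine ⟨⟨Finset.nodup_toList _, Finset.nodup_toList _, ?_⟩, Finset.nodup_toList _, ?_⟩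
    · intro x hx y hy hxy
      subst hxy
      rw [Finset.mem_toList] at hx hy
      rw [Finset.mem_sdiff, Finset.mem_sdiff] at hy
      exact hy.1.2 hx
    · intro x hx y hy hxy
      subst hxy
      rw [Finset.mem_toList] at hy
      rcases List.mem_append.mp hx with h | h
      · exact (Finset.disjoint_left.mp hAB) (Finset.mem_toList.mp h) hy
      · rw [Finset.mem_toList, Finset.mem_sdiff] at h
        exact h.2 hy
  have hSlen : S.length = X.card := by
    rw [← List.toFinset_card_of_nodup hSnd]
    congr 1
    ext x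
    rw [List.mem_toFinset, hSmem]
  have hnd : (L ++ S).Nodup := by
    rw [List.nodup_append]
    refine ⟨h.nd, hSnd, ?_⟩
    intro x hx y hy hxy
    subst hxy
    exact hXL x ((hSmem x).mp hy) hx
  have hBlen : B.toList.length = s - (c + d) := by rw [Finset.length_toList, hBc]
  have hBS : s - (c + d) ≤ S.length := by
    rw [hSlen, ← hBc]
    exact Finset.card_le_card hBX
  refine ⟨S, hSnd, hSmem, hnd, ?_, hcd, ?_, ?_, ?_⟩
  · refine h.cross hnd (fun r _ => aw_grp hSnd g1 (fun v hv => hX v ((hSmem v).mp hv))) ?_
    intro x hx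
    have hlen : A.toList.length = c + 1 := by rw [Finset.length_toList, hAc]
    simp only [S] at hx
    rw [List.append_assoc, List.take_append_of_le_length (by omega), List.take_of_length_le
      (by omega), Finset.mem_toList] at hx
    exact ⟨hX x (hAX hx), (Finset.mem_filter.mp (hA hx)).2⟩
  · rw [List.length_append, hSlen]
    have : L.length + X.card + (c + d) = (L.length + c) + (X.card + d) := by ring
    rw [this]
    exact Dvd.dvd.add h.dvd hd
  · rw [List.length_append]; omega
  · intro x hx
    have e : L ++ S = (L ++ (A.toList ++ ((X \ A) \ B).toList)) ++ B.toList := by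
      simp only [S, List.append_assoc]
    have e2 : (L ++ S).length - (s - (c + d)) = (L ++ (A.toList ++ ((X \ A) \ B).toList)).length := by
      rw [e, List.length_append, hBlen]
      omega
    rw [e2, e, List.drop_left, Finset.mem_toList] at hx
    exact ⟨hX x (hBX hx), (Finset.mem_filter.mp (hB hx)).2⟩

/-- conditions for the groups visited in the middle -/
def ChainOK (G : Blow n s) (X : ℕ → Finset (Fin n)) (d : ℕ → ℕ) (z : ℕ) : ℕ → List ℕ → Prop
  | _, [] => True
  | g, g1 :: π => s ≤ ((X g1).filter (fun x => G.port x = some g)).card + d g1 ∧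
      s ≤ ((X g1).filter (fun x => G.port x = some (π.headD z))).card + d g1 ∧
      g ≠ π.headD z ∧ ChainOK G X d z g1 π

theorem route (X : ℕ → Finset (Fin n)) (d : ℕ → ℕ) (z : ℕ)
    (hX : ∀ g, ∀ x ∈ X g, G.grp x = g) (hXd : ∀ g, s ∣ (X g).card + d g) :
    ∀ (π : List ℕ) (g c : ℕ) (L : List (Fin n)), Ready G g (π.headD z) c L →
      (∀ g' ∈ π, ∀ x ∈ X g', x ∉ L) → π.Nodup → ChainOK G X d z g π →
      c + (π.map d).sum + 1 ≤ s →
      ∃ M : List (Fin n), (∀ x, x ∈ M ↔ ∃ g' ∈ π, x ∈ X g') ∧
        Ready G ((g :: π).getLast (by simp)) z (c + (π.map d).sum) (L ++ M) := by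
  intro π
  induction π with
  | nil =>
    intro g c L h _ _ _ _
    refine ⟨[], by simp, ?_⟩
    simpa using h
  | cons g1 π ih =>
    intro g c L h hXL hnd hch hsum
    simp only [List.headD_cons] at h
    obtain ⟨h1, h2, h3, h4⟩ := hch
    simp only [List.map_cons, List.sum_cons] at hsum
    obtain ⟨S, hSnd, hSmem, hSr⟩ := h.step (X g1) (hX g1) (hXL g1 (by simp)) (hXd g1)
      (by omega) h1 h2 h3
    rw [List.nodup_cons] at hnd
    obtain ⟨M, hM, hMr⟩ := ih g1 (c + d g1) (L ++ S) hSr (by
      intro g' hg' x hx hxL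
      rcases List.mem_append.mp hxL with h5 | h5
      · exact hXL g' (List.mem_cons_of_mem _ hg') x hx h5
      · have e1 := hX g' x hx
        have e2 := hX g1 x ((hSmem x).mp h5)
        rw [← e1, e2] at hg'
        exact hnd.1 hg') hnd.2 h4 (by omega)
    refine ⟨S ++ M, ?_, ?_⟩
    · intro x
      rw [List.mem_append, hSmem, hM]
      constructor
      · rintro (h5 | ⟨g', hg', h5⟩)
        · exact ⟨g1, by simp, h5⟩
        · exact ⟨g', List.mem_cons_of_mem _ hg', h5⟩
      · rintro ⟨g', hg', h5⟩
        rcases List.mem_cons.mp hg' with rfl | hg'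
        · exact Or.inl h5
        · exact Or.inr ⟨g', hg', h5⟩
    · have e : c + ((g1 :: π).map d).sum = c + d g1 + (π.map d).sum := by
        simp only [List.map_cons, List.sum_cons]; ring
      rw [e, ← List.append_assoc, List.getLast_cons (by simp)]
      exact hMr

end Blow

end Pool.Agent.Helper74.HamOne
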